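import Pool.Agent.Y234.GS.Hyp3

/-!
# Project GS: the induction step with hyperplane sections, main theorem
-/

set_option autoImplicit false

namespace Pool.Agent.Y234.GS.Hyp

open MvPolynomial Pool.Agent.Y234.GS

theorem hypst (hBER : S_BER) (hBCH : S_BCH) : S_HYPST := by
  classical
  intro D ih k L ι _ _ _ _ _ _ p x w hp hcp hM hS htr hw hV j hj hjD c0 hc0
  obtain ⟨k', i1, i2, i3, L', i4, i5, i6, i7, i8, i9, u, C, f1, Lc, g1, g2, xc, hdisj, hM',
    hsec, hc⟩ := hBER k L ι x D hM hS htr (by omega)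
  have hX := hM'.ne
  have hcp' : CharP k' p := charP_of_injective_algebraMap (algebraMap k k').injective p
  have hVb : ∀ m : ℤ, m < 0 → ∀ q : ℕ, 2 ≤ q → q < D →
      Van (VV k' (fun i => algebraMap L L' (x i))) (fun i => algebraMap L L' (x i)) m q :=
    fun m hm q hq hqD => van_base hBCH hdisj hM.ne hq (hV m hm q hq hqD)
  have hcard : ∀ (κ : Type) [LinearOrder κ] (T : Finset κ) (n : ℕ) (i : κ), T.card = n + 1 →
      i ∈ T → (T.erase i).card = n := by
    intro κ _ T n i hT hi
    rw [Finset.card_erase_of_mem hi, hT]; rfl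
  -- images of the cocycle
  have hz : ∀ c, ∃ z : Finset {i // xc c i ≠ 0} → Lc c,
      WCocyc k' (fun i : {i // xc c i ≠ 0} => xc c i) (fun i => w i) 0 0 j z ∧
      ∀ S : Finset {i // xc c i ≠ 0}, S.card = j →
        Spec k' (fun i => algebraMap L L' (x i)) (xc c)
          (algebraMap L L' (c0 (S.map (emb (xc c)).toEmbedding))) (z S) := by
    intro c
    have hex : ∀ S : Finset {i // xc c i ≠ 0}, ∃ z : Lc c, S.card = j →
        z ∈ WSec k' (fun i : {i // xc c i ≠ 0} => xc c i) (fun i => w i) 0 0 S ∧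
        Spec k' (fun i => algebraMap L L' (x i)) (xc c)
          (algebraMap L L' (c0 (S.map (emb (xc c)).toEmbedding))) z := by
      intro S
      by_cases hSj : S.card = j
      · obtain ⟨z, h1, h2⟩ := wsec_image (k' := k') (L' := L') x w (xc c)
          (hc0.1 (S.map (emb (xc c)).toEmbedding) (by rw [Finset.card_map, hSj]))
        exact ⟨z, fun _ => ⟨h1, h2⟩⟩
      · exact ⟨0, fun h => absurd h hSj⟩
    choose z hz using hex
    refine ⟨z, ⟨fun S hSj => (hz S hSj).1, fun T hT => ?_⟩, fun S hSj => (hz S hSj).2⟩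
    have h1 : Spec k' (fun i => algebraMap L L' (x i)) (xc c)
        (dd (fun S : Finset {i // xc c i ≠ 0} =>
          algebraMap L L' (c0 (S.map (emb (xc c)).toEmbedding))) T) (dd z T) :=
      spec_dd (fun i hi => (hz _ (hcard _ T j i hT hi)).2)
    have h2 : dd (fun S : Finset {i // xc c i ≠ 0} =>
          algebraMap L L' (c0 (S.map (emb (xc c)).toEmbedding))) T = 0 := by
      rw [Pool.Agent.Y968.GS.dd_alg, Pool.Agent.Y968.GS.dd_map,
        hc0.2 _ (by rw [Finset.card_map, hT]), map_zero]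
    rw [h2] at h1
    exact (spec_uniq (hsec.1 c) spec_zero h1).symm
  choose z hz1 hz2 using hz
  -- they are coboundaries
  have hzb : ∀ c, Cobd (VV k' (fun i : {i // xc c i ≠ 0} => xc c i))
      (fun i : {i // xc c i ≠ 0} => xc c i) 0 j (z c) := by
    intro c
    obtain ⟨hMc, hSc, D', hD', htr'⟩ := hc c
    refine ih D' hD' k' (Lc c) {i // xc c i ≠ 0} p (fun i : {i // xc c i ≠ 0} => xc c i)
      (fun i => w i) hp hcp' hMc hSc htr' (fun a b hab => Subtype.ext (hw hab)) ?_ j hj _ (hz1 c)
    intro m hm q hq hqD'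
    exact comp_van hsec hX hq (hVb m hm q hq (by omega))
      (hVb (m - 1) (by omega) (q + 1) (by omega) (by omega)) c
  choose β hβ hβ2 using hzb
  -- lift
  have hlift : ∀ R : Finset ι, ∃ a : L', R.card = j - 1 →
      a ∈ Sec (VV k' (fun i => algebraMap L L' (x i))) (fun i => algebraMap L L' (x i)) 0 R ∧
      ∀ c, (∀ i ∈ R, xc c i ≠ 0) → Spec k' (fun i => algebraMap L L' (x i)) (xc c) a
        (β c (R.subtype (fun i => xc c i ≠ 0))) := by
    intro R
    by_cases hR : R.card = j - 1
    · have hne : R.Nonempty := by rw [← Finset.card_pos, hR]; omega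
      obtain ⟨a, h1, h2⟩ := hs_lift hsec hX 0 R hne
        (fun c => β c (R.subtype (fun i => xc c i ≠ 0))) (by
          intro c hcR
          have e1 := emb_sub (xc c) R hcR
          have h1 := hβ c (R.subtype (fun i => xc c i ≠ 0)) (by
            rw [← Finset.card_map (emb (xc c)).toEmbedding, e1, hR])
          rw [sec_emb, e1] at h1
          exact h1)
      exact ⟨a, fun _ => ⟨h1, h2⟩⟩
    · exact ⟨0, fun h => absurd h hR⟩
  choose a ha using hlift
  have hc0b : Cocyc (VV k' (fun i => algebraMap L L' (x i))) (fun i => algebraMap L L' (x i)) 0 j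
      (fun S => algebraMap L L' (c0 S)) :=
    Pool.Agent.Y968.GS.cocyc_base (k := k) (k1 := k') (L1 := L') x 0 j c0
      ⟨fun S hSj => Pool.Agent.Y978.GS.WSec_sub_Sec (hc0.1 S hSj), hc0.2⟩
  have hda : ∀ S : Finset ι, S.card = j → dd a S ∈
      Sec (VV k' (fun i => algebraMap L L' (x i))) (fun i => algebraMap L L' (x i)) 0 S := by
    intro S hSj
    refine Pool.Agent.Y340.GS.sec_dd _ _ memV (by rw [← Finset.card_pos, hSj]; omega) a
      (fun i hi => (ha _ ?_).1)
    exact hcard _ S (j - 1) i (by rw [hSj]; omega) hi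
  obtain ⟨b, hb, hb2⟩ := corr hsec hX hj (fun S => algebraMap L L' (c0 S) - dd a S)
    ⟨fun S hSj => Pool.Agent.Y340.GS.sec_sub _ _ memV (hc0b.1 S hSj) (hda S hSj), fun T hT => by
      rw [Pool.Agent.Y340.GS.dd_sub, Pool.Agent.Y978.GS.dd_dd, sub_zero]
      exact hc0b.2 T hT⟩ (by
      intro S hSj c hcS
      have e1 := emb_sub (xc c) S hcS
      have hS'j : (S.subtype (fun i => xc c i ≠ 0)).card = j := by
        rw [← Finset.card_map (emb (xc c)).toEmbedding, e1, hSj]
      have h1 := hz2 c _ hS'j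
      rw [e1] at h1
      have h2 : Spec k' (fun i => algebraMap L L' (x i)) (xc c) (dd a S)
          (dd (β c) (S.subtype (fun i => xc c i ≠ 0))) := by
        have h3 : dd a S = dd (fun S : Finset {i // xc c i ≠ 0} =>
            a (S.map (emb (xc c)).toEmbedding)) (S.subtype (fun i => xc c i ≠ 0)) := by
          rw [Pool.Agent.Y968.GS.dd_map, e1]
        rw [h3]
        refine spec_dd (fun i hi => ?_)
        have hcd : ((S.subtype (fun i => xc c i ≠ 0)).erase i).card = j - 1 :=
          hcard _ _ (j - 1) i (by rw [hS'j]; omega) hi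
        have h4 := (ha (((S.subtype (fun i => xc c i ≠ 0)).erase i).map
          (emb (xc c)).toEmbedding) (by rw [Finset.card_map, hcd])).2 c (mem_emb (xc c) _)
        rw [sub_emb] at h4
        exact h4
      have h5 := spec_sub h1 h2
      rwa [hβ2 c _ hS'j, sub_self] at h5) (hVb (0 - 1) (by norm_num) j hj hjD)
  -- the cocycle over the large field is a coboundary
  have hcob : Cobd (VV k' (fun i => algebraMap L L' (x i))) (fun i => algebraMap L L' (x i)) 0 j
      (fun S => algebraMap L L' (c0 S)) := by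
    refine ⟨fun S => a S + (∑ i, u i • algebraMap L L' (x i)) * b S, fun S hSj =>
      Pool.Agent.Y340.GS.sec_add _ _ memV (ha S hSj).1 (theta_mul (hb S hSj)), fun S hSj => ?_⟩
    rw [Pool.Agent.Y340.GS.dd_add, Pool.Agent.Y968.GS.dd_mul, ← hb2 S hSj]
    ring
  obtain ⟨-, h2⟩ := hBCH k k' L L' ι x 0 j hdisj hM.ne (by omega)
  refine h2 hj 1 (fun _ => 1) (fun _ => c0) ?_ (fun _ =>
    ⟨fun S hSj => Pool.Agent.Y978.GS.WSec_sub_Sec (hc0.1 S hSj), hc0.2⟩) ?_ 0
  · exact LinearIndependent.of_subsingleton 0 one_ne_zero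
  · simpa using hcob

end Pool.Agent.Y234.GS.Hyp
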