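import Pool.Agent.Y234.GS.StmA

/-!
# Project GS: statements, part B (trace frames, functionals, discrete valuation ring)
-/

set_option autoImplicit false

namespace Pool.Agent.Y234.GS

open MvPolynomial TensorProduct

/-! ## Noether normalization by linear forms -/

/-- `Cover` for a family of elements of a commutative ring. -/
def CoverR {k B : Type} [Field k] [CommRing B] [Algebra k B] {D : ℕ} (W : Submodule k B)
    (θ : Fin D → B) : Prop :=
  ∃ N : ℕ, ∀ a ∈ W ^ (N + 1), ∃ r : Fin D → B, (∀ l, r l ∈ W ^ N) ∧ a = ∑ l, θ l * r l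

/-- NN: Noether normalization of a standard graded algebra by linear forms. -/
def S_NN : Prop :=
  ∀ (k B ι : Type) [Field k] [Infinite k] [CommRing B] [Nontrivial B] [Algebra k B] [Fintype ι]
    (z : ι → B),
    (∀ G : MvPolynomial ι k, aeval z G = 0 → ∀ d : ℕ, aeval z (homogeneousComponent d G) = 0) →
    ∃ (d : ℕ) (v : Fin d → ι → k), AlgebraicIndependent k (fun l => ∑ i, v l i • z i) ∧
      CoverR (VV k z) (fun l => ∑ i, v l i • z i)

/-- GNN: if the graded pieces grow at most like `e ^ (D - 1)` then `D` generic linear forms have no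
common zeros. -/
def S_GNN : Prop :=
  ∀ (k B ι : Type) [Field k] [Infinite k] [CommRing B] [Nontrivial B] [Algebra k B] [Fintype ι]
    (z : ι → B) (D C : ℕ), 1 ≤ D →
    (∀ G : MvPolynomial ι k, aeval z G = 0 → ∀ d : ℕ, aeval z (homogeneousComponent d G) = 0) →
    (∀ e : ℕ, Module.finrank k ↥((VV k z) ^ e) ≤ C * (e + 1) ^ (D - 1)) →
    ∃ Φ : MvPolynomial (Fin D × ι) k, Φ ≠ 0 ∧ ∀ v : Fin D × ι → k, eval v Φ ≠ 0 →
      CoverR (VV k z) (fun l => ∑ i, v (l, i) • z i)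

/-- NND: Noether normalization and growth for a model. -/
def S_NND : Prop :=
  ∀ (K L ι : Type) [Field K] [Infinite K] [Field L] [Algebra K L] [Fintype ι] (x : ι → L) (D : ℕ),
    Model K x → Algebra.trdeg K L = (D : Cardinal) →
    (∃ v : Fin D → ι → K, AlgebraicIndependent K (fun l => ∑ i, v l i • x i) ∧
      Cover (VV K x) (fun l => ∑ i, v l i • x i)) ∧
    (1 ≤ D → ∃ C : ℕ, ∀ e : ℕ, Module.finrank K ↥((VV K x) ^ e) ≤ C * (e + 1) ^ (D - 1)) ∧
    (∀ v : Fin D → ι → K, Cover (VV K x) (fun l => ∑ i, v l i • x i) →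
      AlgebraicIndependent K (fun l => ∑ i, v l i • x i))

/-! ## Vanishing above the dimension, killing below the dimension -/

/-- HIGH: vanishing above the dimension. -/
def S_HIGH : Prop :=
  ∀ (K L ι : Type) [Field K] [Field L] [Algebra K L] [LinearOrder ι] [Fintype ι] (x : ι → L)
    (D : ℕ) (θ : Fin D → L), (∀ i, x i ≠ 0) → (∀ k, θ k ∈ VV K x) → (∀ k, θ k ≠ 0) →
    Cover (VV K x) θ → ∀ (m : ℤ) (j : ℕ), 2 ≤ j → D < j → Van (VV K x) x m j

/-- EK: a trace frame gives an element that kills the cohomology below the top level. -/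
def S_EK : Prop :=
  ∀ (K L ι : Type) [Field K] [Field L] [Algebra K L] [LinearOrder ι] [Fintype ι] (x : ι → L)
    (p D : ℕ) (y : ι → K), p.Prime → CharP K p → (∀ i, x i ≠ 0) → TF K p x D y →
    ∃ (R : ℕ) (g : L), NZ K x y R g ∧
      ∀ (m : ℤ) (j : ℕ) (c : Finset ι → L), 2 ≤ j → j < D → Cocyc (VV K x) x m j c →
        Cobd (VV K x) x (m + R) j (fun S => g * c S)

/-! ## Trace frames -/

/-- TAN: dimension of the tangent spaces. -/
def S_TAN : Prop :=
  ∀ (K L ι : Type) [Field K] [IsAlgClosed K] [Field L] [Algebra K L] [Fintype ι] (x : ι → L)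
    (D : ℕ) (y : ι → K), Model K x → SmoothCharts K x → Algebra.trdeg K L = (D : Cardinal) →
    IsPt K x y → Module.finrank K ↥(Tan K x y) = D

/-- TF1: generic linear forms at a point. -/
def S_TF1 : Prop :=
  ∀ (K L ι : Type) [Field K] [Infinite K] [Field L] [Algebra K L] [Fintype ι] (x : ι → L)
    (D : ℕ) (T : Submodule K (ι → K)), 1 ≤ D → Model K x → Algebra.trdeg K L = (D : Cardinal) →
    Module.finrank K ↥T ≤ D →
    ∃ v : Fin D → ι → K, Cover (VV K x) (fun l => ∑ i, v l i • x i) ∧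
      ∀ u ∈ T, (∀ l, ∑ i, v l i * u i = 0) → u = 0

/-- SEPE: the local separability element. -/
def S_SEPE : Prop :=
  ∀ (K L ι : Type) [Field K] [IsAlgClosed K] [Field L] [Algebra K L] [Fintype ι] (x : ι → L)
    (D : ℕ) (y : ι → K) (v : Fin D → ι → K) (Q : IntermediateField K L), Model K x →
    IsPt K x y → (∀ l, ∑ i, v l i • x i ∈ Q) →
    (∀ u ∈ Tan K x y, (∀ l, ∑ i, v l i * u i = 0) → u = 0) →
    ∃ (n R : ℕ) (r r' : Fin n → ℕ) (a b : Fin n → L) (g : L),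
      (∀ i, r i + r' i = R ∧ a i ∈ (VV K x) ^ r i ∧ b i ∈ (VV K x) ^ r' i) ∧ NZ K x y R g ∧
      ∑ i, a i * b i = g ∧
      ∀ z : L, ∑ i, (z * a i) ⊗ₜ[Q] (b i) = ∑ i, (a i) ⊗ₜ[Q] (z * b i)

/-- TRF: from the separability element to the trace frame. -/
def S_TRF : Prop :=
  ∀ (K L ι : Type) [Field K] [IsAlgClosed K] [Field L] [Algebra K L] [Fintype ι] (x : ι → L)
    (p D : ℕ) (y : ι → K) (θ : Fin D → L), p.Prime → CharP K p → Model K x →
    (∀ l, θ l ∈ VV K x) → AlgebraicIndependent K θ → Cover (VV K x) θ →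
    (∃ (n R : ℕ) (r r' : Fin n → ℕ) (a b : Fin n → L) (g : L),
      (∀ i, r i + r' i = R ∧ a i ∈ (VV K x) ^ r i ∧ b i ∈ (VV K x) ^ r' i) ∧ NZ K x y R g ∧
      ∑ i, a i * b i = g ∧
      ∀ z : L, ∑ i, (z * a i) ⊗ₜ[IntermediateField.adjoin K (Set.range θ)] (b i) =
        ∑ i, (a i) ⊗ₜ[IntermediateField.adjoin K (Set.range θ)] (z * b i)) →
    TF K p x D y

/-! ## Functionals on the top cohomology -/

/-- FG: the functionals on the top level are finitely generated. -/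
def S_FG : Prop :=
  ∀ (K L ι : Type) [Field K] [Field L] [Algebra K L] [LinearOrder ι] [Fintype ι] (x : ι → L)
    (D : ℕ) (θ : Fin D → L), 2 ≤ D → Model K x → (∀ k, θ k ∈ VV K x) →
    AlgebraicIndependent K θ → Cover (VV K x) θ →
    ∃ (n : ℕ) (d : Fin n → ℤ) (χ : Fin n → ((Finset ι → L) →ₗ[K] K)),
      (∀ s c, Cocyc (VV K x) x (-(d s)) D c → Cobd (VV K x) x (-(d s)) D c → χ s c = 0) ∧
      ∀ (m : ℤ) (lam : (Finset ι → L) →ₗ[K] K),
        (∀ c, Cocyc (VV K x) x (-m) D c → Cobd (VV K x) x (-m) D c → lam c = 0) →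
        ∃ β : Fin n → L, (∀ s, β s = 0 ∨ ∃ e : ℕ, (e : ℤ) = m - d s ∧ β s ∈ (VV K x) ^ e) ∧
          ∀ c, Cocyc (VV K x) x (-m) D c → lam c = ∑ s, χ s (fun S => β s * c S)

/-- REG: strong regularity at a point, in terms of the top cohomology. -/
def S_REG : Prop :=
  ∀ (K L ι : Type) [Field K] [IsAlgClosed K] [Field L] [Algebra K L] [LinearOrder ι] [Fintype ι]
    (x : ι → L) (p D : ℕ) (y : ι → K), p.Prime → CharP K p → 2 ≤ D → Model K x →
    IsPt K x y → TF K p x D y → ∀ (M : ℕ) (c : L), c ∈ (VV K x) ^ M → c ≠ 0 →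
    ∃ (e m : ℕ) (g : L), NZ K x y m g ∧
      ∀ (μ : ℤ) (ξ : Finset ι → L), Cocyc (VV K x) x μ D ξ →
        Cobd (VV K x) x ((M : ℤ) + (p ^ e : ℕ) * μ) D (fun S => c * ξ S ^ p ^ e) →
        Cobd (VV K x) x (μ + m) D (fun S => g * ξ S)

/-- LAM: the functional form of REG. -/
def S_LAM : Prop :=
  ∀ (K L ι : Type) [Field K] [IsAlgClosed K] [Field L] [Algebra K L] [LinearOrder ι] [Fintype ι]
    (x : ι → L) (p D e m M : ℕ) (g c : L) (ell : (Finset ι → L) →ₗ[K] K),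
    p.Prime → CharP K p → 2 ≤ D → (∀ i, x i ≠ 0) → g ∈ (VV K x) ^ m → c ∈ (VV K x) ^ M →
    (∀ a, Cocyc (VV K x) x 0 D a → Cobd (VV K x) x 0 D a → ell a = 0) →
    (∀ ξ : Finset ι → L, Cocyc (VV K x) x (-(m : ℤ)) D ξ →
      Cobd (VV K x) x ((M : ℤ) - (p ^ e : ℕ) * m) D (fun S => c * ξ S ^ p ^ e) →
      Cobd (VV K x) x 0 D (fun S => g * ξ S)) →
    ∃ lam : (Finset ι → L) →ₗ[K] K,
      (∀ a, Cocyc (VV K x) x ((M : ℤ) - (p ^ e : ℕ) * m) D a →
        Cobd (VV K x) x ((M : ℤ) - (p ^ e : ℕ) * m) D a → lam a = 0) ∧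
      ∀ ξ : Finset ι → L, Cocyc (VV K x) x (-(m : ℤ)) D ξ →
        (ell (fun S => g * ξ S)) ^ p ^ e = lam (fun S => c * ξ S ^ p ^ e)

/-- EXT: extension of a functional to top sections over a larger field. -/
def S_EXT : Prop :=
  ∀ (k k1 L L1 ι : Type) [Field k] [Field k1] [Field L] [Field L1] [Algebra k k1] [Algebra k L]
    [Algebra k L1] [Algebra k1 L1] [Algebra L L1] [IsScalarTower k k1 L1] [IsScalarTower k L L1]
    [LinearOrder ι] [Fintype ι] (x : ι → L) (D : ℕ) (ψ : Fin D → L1) (μ : ℤ),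
    2 ≤ D → Disj k k1 L L1 → (∀ i, x i ≠ 0) →
    (∀ l, ψ l ∈ VV k1 (fun i => algebraMap L L1 (x i))) → (∀ l, ψ l ≠ 0) →
    Cover (VV k1 (fun i => algebraMap L L1 (x i))) ψ →
    (∀ v ∈ Sec (VV k1 (fun i => algebraMap L L1 (x i))) ψ μ Finset.univ,
      ∃ (n : ℕ) (r : Fin n → k1) (c : Fin n → Finset ι → L) (v' : Fin n → L1),
        (∀ i, Cocyc (VV k x) x μ D (c i)) ∧
        (∀ i, Rep (VV k1 (fun i => algebraMap L L1 (x i))) (fun i => algebraMap L L1 (x i)) ψ μ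
          (fun S => algebraMap L L1 (c i S)) (v' i)) ∧ v = ∑ i, r i • v' i) ∧
    (∀ χ : (Finset ι → L) →ₗ[k] k,
      (∀ c, Cocyc (VV k x) x μ D c → Cobd (VV k x) x μ D c → χ c = 0) →
      ∃ χ1 : L1 →ₗ[k1] k1,
        (∀ v, Bd (VV k1 (fun i => algebraMap L L1 (x i))) ψ μ v → χ1 v = 0) ∧
        ∀ c v, Cocyc (VV k x) x μ D c →
          Rep (VV k1 (fun i => algebraMap L L1 (x i))) (fun i => algebraMap L L1 (x i)) ψ μ
            (fun S => algebraMap L L1 (c S)) v → χ1 v = algebraMap k k1 (χ c))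

/-- The expansion map attached to a functional of degree `μ`. -/
noncomputable def phiSum {k1 L1 : Type} [Field k1] [Field L1] [Algebra k1 L1] {D : ℕ}
    (ψ : Fin D → L1) (χ1 : L1 →ₗ[k1] k1) (μ : ℤ) (h : ℕ) (f : L1) : L1 :=
  if 0 ≤ (h : ℤ) - D - μ then
    ∑ a ∈ Finset.piAntidiag (Finset.univ : Finset (Fin D)) ((h : ℤ) - D - μ).toNat,
      χ1 (f * monz ψ (fun l => -(a l : ℤ) - 1)) • mon ψ a
  else 0

/-- PHI: the linear map attached to a functional. -/
def S_PHI : Prop :=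
  ∀ (k1 L1 ι : Type) [Field k1] [Field L1] [Algebra k1 L1] [Fintype ι] (X : ι → L1) (D : ℕ)
    (ψ : Fin D → L1) (μ : ℤ) (χ1 : L1 →ₗ[k1] k1),
    2 ≤ D → Model k1 X → (∀ l, ψ l ∈ VV k1 X) → AlgebraicIndependent k1 ψ →
    Cover (VV k1 X) ψ → (∀ v, Bd (VV k1 X) ψ μ v → χ1 v = 0) →
    ∃ φ : L1 →ₗ[k1] L1, (∀ l z, φ (ψ l * z) = ψ l * φ z) ∧
      (∀ (h : ℕ), ∀ f ∈ (VV k1 X) ^ h, φ f = phiSum ψ χ1 μ h f) ∧
      ∀ z, φ z ∈ IntermediateField.adjoin k1 (Set.range ψ)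

/-! ## The discrete valuation ring -/

/-- The localization of `O[ψ]` at the prime generated by `t`. -/
def GD {O L1 : Type} [CommRing O] [Field L1] [Algebra O L1] (t : O) {D : ℕ} (ψ : Fin D → L1) :
    Set L1 :=
  {z | ∃ F N : MvPolynomial (Fin D) O, (∃ b, ¬ t ∣ coeff b F) ∧ z * aeval ψ F = aeval ψ N}

/-- The maximal ideal of `GD`. -/
def GDt {O L1 : Type} [CommRing O] [Field L1] [Algebra O L1] (t : O) {D : ℕ} (ψ : Fin D → L1) :
    Set L1 :=
  {z | ∃ F N : MvPolynomial (Fin D) O, (∃ b, ¬ t ∣ coeff b F) ∧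
    z * aeval ψ F = aeval ψ (C t * N)}

/-- GAU: the Gauss valuation ring. -/
def S_GAU : Prop :=
  ∀ (k O k1 L1 : Type) [Field k] [CommRing O] [IsDomain O] [IsDiscreteValuationRing O] [Field k1]
    [Field L1] [Algebra k O] [Algebra O k1] [IsFractionRing O k1] [Algebra k1 L1] [Algebra O L1]
    [Algebra k L1] [IsScalarTower O k1 L1] [IsScalarTower k O L1] (t : O) (D : ℕ)
    (ψ : Fin D → L1),
    Irreducible t → AlgebraicIndependent k1 ψ →
    FiniteDimensional (IntermediateField.adjoin k1 (Set.range ψ)) L1 →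
    Algebra.IsSeparable (IntermediateField.adjoin k1 (Set.range ψ)) L1 →
    (∀ F : MvPolynomial (Fin D) k1, aeval ψ F ∈ GDt t ψ →
      ∀ b, ∃ o : O, coeff b F = algebraMap O k1 (t * o)) ∧
    ∃ (Dv Q : Type) (_ : CommRing Dv) (_ : IsDomain Dv) (_ : IsDiscreteValuationRing Dv)
      (_ : Field Q) (_ : Algebra k Dv) (_ : Algebra Dv Q) (_ : IsFractionRing Dv Q)
      (_ : Algebra Q L1) (_ : Algebra Dv L1) (_ : IsScalarTower Dv Q L1)
      (_ : IsScalarTower k Dv L1) (_ : FiniteDimensional Q L1) (_ : Algebra.IsSeparable Q L1)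
      (t' : Dv), Irreducible t' ∧ algebraMap Dv L1 t' = algebraMap O L1 t ∧
      (∀ z : L1, (∃ z' : Dv, algebraMap Dv L1 z' = z) ↔ z ∈ GD t ψ) ∧
      (∀ z : L1, (∃ z' : Dv, algebraMap Dv L1 (t' * z') = z) ↔ z ∈ GDt t ψ) ∧
      (∀ z : L1, z ∈ Set.range (algebraMap Q L1) ↔
        z ∈ IntermediateField.adjoin k1 (Set.range ψ))

/-- CART: the Cartier operator argument. -/
def S_CART : Prop :=
  ∀ (O k1 L1 ι : Type) [CommRing O] [IsDomain O] [IsDiscreteValuationRing O] [Field k1]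
    [Field L1] [Algebra O k1] [IsFractionRing O k1] [Algebra k1 L1] [Algebra O L1]
    [IsScalarTower O k1 L1] [Fintype ι] (p e : ℕ) (t : O) (X : ι → L1) (D : ℕ) (ψ : Fin D → L1)
    (φ' Φ' : L1 →ₗ[k1] L1),
    p.Prime → CharP k1 p → Irreducible t → Model k1 X → (∀ l, ψ l ∈ VV k1 X) →
    AlgebraicIndependent k1 ψ → Cover (VV k1 X) ψ →
    (∀ l z, φ' (ψ l * z) = ψ l * φ' z) → (∀ l z, Φ' (ψ l * z) = ψ l * Φ' z) →
    (∀ (h : ℕ), ∀ f ∈ (VV k1 X) ^ h, ∃ c C : (Fin D → ℕ) →₀ k1,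
      φ' f = c.sum (fun a r => r • mon ψ a) ∧
      Φ' (f ^ p ^ e) = C.sum (fun b r => r • mon ψ b) ∧
      ∀ a, C (fun l => p ^ e * a l + (p ^ e - 1)) = (c a) ^ p ^ e) →
    ∀ σ : L1, Φ' (σ ^ p ^ e) ∈ GDt t ψ → φ' σ ∈ GDt t ψ

/-- PSI1: generic linear forms in the rescaled coordinates have no common zeros, over the discrete
valuation ring. -/
def S_PSI1 : Prop :=
  ∀ (k O k1 L1 ι : Type) [Field k] [Infinite k] [CommRing O] [IsDomain O]
    [IsDiscreteValuationRing O] [Field k1] [Field L1] [Algebra k O] [Algebra O k1]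
    [IsFractionRing O k1] [Algebra k1 L1] [Algebra O L1] [Algebra k L1] [IsScalarTower O k1 L1]
    [IsScalarTower k O L1] [Fintype ι] (t : O) (X : ι → L1) (w : ι → ℕ) (D C : ℕ),
    Irreducible t → (∀ o : O, ∃ c : k, t ∣ o - algebraMap k O c) → Model k1 X → 1 ≤ D →
    (∀ e : ℕ, Module.finrank k1 ↥((VV k1 X) ^ e) ≤ C * (e + 1) ^ (D - 1)) →
    ∃ Φ : MvPolynomial (Fin D × ι) k, Φ ≠ 0 ∧ ∀ v : Fin D × ι → k, eval v Φ ≠ 0 →
      Cover (Submodule.span O (Set.range (fun i => t ^ w i • X i)))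
        (fun l => ∑ i, v (l, i) • (t ^ w i • X i))

/-- PSI2: generic linear forms in rescaled coordinates give a finite separable extension. -/
def S_PSI2 : Prop :=
  ∀ (k k1 L L1 ι : Type) [Field k] [IsAlgClosed k] [Field k1] [Field L] [Field L1] [Algebra k k1]
    [Algebra k L] [Algebra k L1] [Algebra k1 L1] [Algebra L L1] [IsScalarTower k k1 L1]
    [IsScalarTower k L L1] [Fintype ι] (x : ι → L) (u : ι → k1) (D : ℕ),
    Disj k k1 L L1 → Model k x → Model k1 (fun i => algebraMap L L1 (x i)) →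
    (∀ i, u i ≠ 0) → Algebra.trdeg k L = (D : Cardinal) →
    ∃ Φ : MvPolynomial (Fin D × ι) k, Φ ≠ 0 ∧ ∀ v : Fin D × ι → k, eval v Φ ≠ 0 →
      AlgebraicIndependent k1 (fun l => ∑ i, v (l, i) • (u i • algebraMap L L1 (x i))) ∧
      FiniteDimensional (IntermediateField.adjoin k1
        (Set.range (fun l => ∑ i, v (l, i) • (u i • algebraMap L L1 (x i))))) L1 ∧
      Algebra.IsSeparable (IntermediateField.adjoin k1
        (Set.range (fun l => ∑ i, v (l, i) • (u i • algebraMap L L1 (x i))))) L1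

/-- BCM: base change of a model. -/
def S_BCM : Prop :=
  ∀ (k k1 L ι : Type) [Field k] [IsAlgClosed k] [Field k1] [Field L] [Algebra k k1]
    [Algebra k L] [Fintype ι] (x : ι → L) (D : ℕ), Model k x →
    Algebra.trdeg k L = (D : Cardinal) →
    ∃ (L1 : Type) (_ : Field L1) (_ : Algebra k L1) (_ : Algebra L L1) (_ : Algebra k1 L1)
      (_ : IsScalarTower k L L1) (_ : IsScalarTower k k1 L1),
      Disj k k1 L L1 ∧ Model k1 (fun i => algebraMap L L1 (x i)) ∧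
      Algebra.trdeg k1 L1 = (D : Cardinal) ∧
      (SmoothCharts k x → SmoothCharts k1 (fun i => algebraMap L L1 (x i))) ∧
      (∀ y : ι → k1, Tan k x y = Tan k1 (fun i => algebraMap L L1 (x i)) y)

end Pool.Agent.Y234.GS
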