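import Pool.Agent.Y234.GS.Asm4
import Pool.Agent.Y234.GS.Hyp4
import Pool.Agent.Y758.GS.Trf
import Pool.Agent.Y758.GS.Dom
import Pool.Agent.Y864.GS.FG
import Pool.Agent.Y864.GS.Klh
import Pool.Agent.Y785.GS.Reg
import Pool.Agent.Y811.GS.Lam
import Pool.Agent.Y968.GS.Ext
import Pool.Agent.Y968.GS.Tan
import Pool.Agent.Y328.GS.Phi
import Pool.Agent.Y394.GS.Gau
import Pool.Agent.Y781.GS.Cart
import Pool.Agent.Y781.GS.Desc0
import Pool.Agent.Y978.GS.PSI1
import Pool.Agent.Y978.GS.GNN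
import Pool.Agent.Y978.GS.High
import Pool.Agent.Y73.GS.Psi2
import Pool.Agent.Y73.GS.Bch
import Pool.Agent.Y761.GS.Bcm
import Pool.Agent.Y761.GS.Kl4
import Pool.Agent.Y925.GS.Dede
import Pool.Agent.Y925.GS.Smi
import Pool.Agent.Y517.GS.Bs
import Pool.Agent.Y99.GS.Berp
import Pool.Agent.Y786.GS.Bera
import Pool.Agent.Y41.GS.Frac
import Pool.Agent.Y350.GS.WT
import Pool.Agent.Y547.GS.Sepe
import Pool.Agent.Y968.GS.Comp

/-!
# Project GS: the final theorem
-/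

set_option autoImplicit false

namespace Pool.Agent.Y234.GS

open MvPolynomial

universe v

theorem top' : S_TOP := Pool.Agent.Y968.GS.top Pool.Agent.Y340.GS.ref
theorem repc' : S_REPC := Pool.Agent.Y968.GS.repc
theorem gnn' : S_GNN := Pool.Agent.Y978.GS.gnn Pool.Agent.Y978.GS.nn
theorem nnd' : S_NND := Pool.Agent.Y978.GS.nnd Pool.Agent.Y978.GS.nn
theorem tf1' : S_TF1 := Pool.Agent.Y978.GS.tf1 gnn' nnd'
theorem high' : S_HIGH := Pool.Agent.Y978.GS.high Pool.Agent.Y340.GS.ref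
theorem ek' : S_EK := Pool.Agent.Y978.GS.ek Pool.Agent.Y340.GS.ref Pool.Agent.Y394.GS.pol
theorem tan' : S_TAN := Pool.Agent.Y968.GS.tan
theorem trf' : S_TRF := Pool.Agent.Y758.GS.trf
theorem fg' : S_FG := Pool.Agent.Y864.GS.fg top' repc' Pool.Agent.Y394.GS.polt
theorem reg' : S_REG := Pool.Agent.Y785.GS.reg top' repc' Pool.Agent.Y394.GS.polt
theorem ext' : S_EXT := Pool.Agent.Y968.GS.ext top' repc' Pool.Agent.Y73.GS.bch
theorem klh' : S_KLH := Pool.Agent.Y864.GS.klh top' repc' ext' Pool.Agent.Y781.GS.cart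
theorem psi1' : S_PSI1 := Pool.Agent.Y978.GS.psi1 gnn'
theorem psi2' : S_PSI2 := Pool.Agent.Y73.GS.psi2
theorem bcm' : S_BCM := Pool.Agent.Y761.GS.bcm
theorem bera' : S_BERA :=
  Pool.Agent.Y786.GS.bera bcm' tan' Pool.Agent.Y99.GS.berp Pool.Agent.Y517.GS.bs
theorem dom' : S_DOM := Pool.Agent.Y758.GS.dom Pool.Agent.Y925.GS.smi

theorem kl' (h : S_TFALL) : S_KL :=
  Pool.Agent.Y761.GS.kl top' Pool.Agent.Y968.GS.rch nnd' fg' reg' Pool.Agent.Y811.GS.lam ext'
    Pool.Agent.Y328.GS.phi Pool.Agent.Y394.GS.gau klh' psi1' psi2' bcm' Pool.Agent.Y925.GS.dede h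

theorem comp' : S_COMP := Pool.Agent.Y968.GS.comp Pool.Agent.Y925.GS.smi

theorem tfall' : S_TFALL := tfall tan' tf1' nnd' Pool.Agent.Y547.GS.sepe trf'

/-- Acyclicity of all links and of the complex, over an algebraically closed field of positive
characteristic. -/
theorem thmp' : S_THMP :=
  thmp (kl' tfall') (Hyp.hypst (ber bera' comp') Pool.Agent.Y73.GS.bch) high' nnd' ek' tfall'

/-- The theorem, with the boundary matrices `bmat`. -/
theorem final' (K : Type) [Field K] (n : ℕ) (Δ : Finset (Finset (Fin n)))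
    (hdown : ∀ F ∈ Δ, ∀ G : Finset (Fin n), G ⊆ F → G ∈ Δ)
    (hex : ∃ (I : Ideal (MvPolynomial (Fin n) K)) (ord : MonomialOrder.{0, v} (Fin n)),
      (∀ f ∈ I, ∀ d : ℕ, MvPolynomial.homogeneousComponent d f ∈ I) ∧
      I.IsPrime ∧
      (∃ i : Fin n, MvPolynomial.X i ∉ I) ∧
      (∀ i : Fin n, Algebra.Smooth K
        (Localization.Away (Ideal.Quotient.mk I (MvPolynomial.X i)))) ∧
      Ideal.span {p : MvPolynomial (Fin n) K | ∃ f ∈ I, f ≠ 0 ∧
          p = MvPolynomial.monomial (ord.degree f) (1 : K)} =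
        Ideal.span {p : MvPolynomial (Fin n) K | ∃ S : Finset (Fin n), S ∉ Δ ∧
          p = MvPolynomial.monomial (∑ i ∈ S, Finsupp.single i 1) (1 : K)}) :
    (∀ F ∈ Δ, ∀ k : ℕ,
          (∃ G ∈ Δ, G ∩ F = ∅ ∧ G ∪ F ∈ Δ ∧ k < G.card) →
          ((Δ.filter (fun G => G ∩ F = ∅ ∧ G ∪ F ∈ Δ)).filter
              (fun G => G.card = k)).card =
            (bmat K (Δ.filter (fun G => G ∩ F = ∅ ∧ G ∪ F ∈ Δ)) k).rank +
              (if k = 0 then 0 else
                (bmat K (Δ.filter (fun G => G ∩ F = ∅ ∧ G ∪ F ∈ Δ)) (k - 1)).rank)) ∧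
       (∀ k : ℕ,
          (Δ.filter (fun G => G.card = k)).card =
            (bmat K Δ k).rank + (if k = 0 then 0 else (bmat K Δ (k - 1)).rank)) :=
  final thmp' dom' Pool.Agent.Y41.GS.frac Pool.Agent.Y41.GS.descp Pool.Agent.Y781.GS.desc0
    Pool.Agent.Y350.GS.wt.{v} K n Δ hdown hex

end Pool.Agent.Y234.GS
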