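import Pool.Agent.Y234.GS.StmC

set_option autoImplicit false

namespace Pool.Agent.Y234.GS

open MvPolynomial

theorem ber (h1 : S_BERA) (h2 : S_COMP) : S_BER := by
  intro k L ι _ _ _ _ _ x D hM hS hD h2D
  obtain ⟨k', i1, i2, i3, L', i4, i5, i6, i7, i8, i9, u, hdisj, hM', htr, hne, hsm⟩ :=
    h1 k L ι x D hM hS hD h2D
  obtain ⟨C, f1, Lc, g1, g2, xc, hsec, hc⟩ :=
    h2 k' L' ι (fun i => algebraMap L L' (x i)) u D hM' htr hne hsm
  exact ⟨k', i1, i2, i3, L', i4, i5, i6, i7, i8, i9, u, C, f1, Lc, g1, g2, xc, hdisj, hM',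
    hsec, hc⟩

theorem tfall (hT : S_TAN) (h1 : S_TF1) (hN : S_NND) (hS : S_SEPE) (hR : S_TRF) : S_TFALL := by
  intro K L ι _ _ _ _ _ x p D y hp hcp hD hM hS' htr hy
  have e1 := hT K L ι x D y hM hS' htr hy
  obtain ⟨v, hv, hv2⟩ := h1 K L ι x D (Tan K x y) hD hM htr e1.le
  have hind := (hN K L ι x D hM htr).2.2 v hv
  refine hR K L ι x p D y (fun l => ∑ i, v l i • x i) hp hcp hM ?_ hind hv ?_
  · intro l
    exact Submodule.sum_mem _ (fun i _ => Submodule.smul_mem _ _
      (Submodule.subset_span ⟨i, rfl⟩))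
  · exact hS K L ι x D y v (IntermediateField.adjoin K
      (Set.range (fun l => ∑ i, v l i • x i))) hM hy
      (fun l => IntermediateField.subset_adjoin _ _ ⟨l, rfl⟩) hv2

section trdeg

variable {K L ι : Type} [Field K] [Field L] [Algebra K L] [Fintype ι] {x : ι → L}

theorem mon_eq (G : ι →₀ ℕ) : aeval x (monomial G (1 : K)) = mon x (fun i => G i) := by
  rw [aeval_monomial, map_one, one_mul, Finsupp.prod_fintype _ _ (fun i => pow_zero _)]
  rfl

/-- The transcendence degree of a model is a natural number. -/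
theorem trdeg_nat (hM : Model K x) : ∃ D : ℕ, Algebra.trdeg K L = (D : Cardinal) := by
  have halg : Algebra.IsAlgebraic (Algebra.adjoin K (Set.range x)) L := by
    constructor
    intro a
    obtain ⟨G, H, hH, h⟩ := hM.gen a
    have hG' : aeval x G ∈ Algebra.adjoin K (Set.range x) := by
      rw [Algebra.adjoin_range_eq_range_aeval]
      exact ⟨G, rfl⟩
    have hH' : aeval x H ∈ Algebra.adjoin K (Set.range x) := by
      rw [Algebra.adjoin_range_eq_range_aeval]
      exact ⟨H, rfl⟩
    refine ⟨Polynomial.C (⟨aeval x H, hH'⟩ : Algebra.adjoin K (Set.range x)) * Polynomial.X -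
      Polynomial.C ⟨aeval x G, hG'⟩, ?_, ?_⟩
    · intro h0
      have h1 := congrArg (fun P => Polynomial.coeff P 1) h0
      simp [Polynomial.coeff_C] at h1
      exact hH (congrArg Subtype.val h1)
    · simp only [map_sub, map_mul, Polynomial.aeval_C, Polynomial.aeval_X]
      change aeval x H * a - aeval x G = 0
      rw [← h]
      ring
  have h1 : Algebra.trdeg K L ≤ Cardinal.mk (Set.range x) := Algebra.IsAlgebraic.trdeg_le_cardinalMk _ _
  have h2 : Cardinal.mk (Set.range x) < Cardinal.aleph0 :=
    Cardinal.lt_aleph0_iff_finite.mpr (Set.finite_range x)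
  obtain ⟨D, hD⟩ := Cardinal.lt_aleph0.mp (lt_of_le_of_lt h1 h2)
  exact ⟨D, hD⟩

/-- The coordinates on a face are algebraically independent. -/
theorem indepF {w : ι → ℕ} {Δ : Finset (Finset ι)} (hM : Model K x) (hG : Grob K x w Δ)
    {F : Finset ι} (hF : F ∈ Δ) : AlgebraicIndependent K (fun i : {i // i ∈ F} => x i) := by
  classical
  rw [algebraicIndependent_iff]
  intro G hG0
  have hren : aeval x (rename Subtype.val G) = 0 := by
    rw [aeval_rename]
    exact hG0
  have hsub : ∀ b ∈ (rename (Subtype.val : {i // i ∈ F} → ι) G).support, supp (fun i => b i) ∈ Δ := by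
    intro b hb
    have h1 : b ∈ Finset.image (Finsupp.mapDomain Subtype.val) G.support := by
      rw [← support_rename_of_injective (f := (Subtype.val : {i // i ∈ F} → ι))
        Subtype.val_injective]
      exact hb
    obtain ⟨a, -, rfl⟩ := Finset.mem_image.mp h1
    apply hG.down F hF
    intro i hi
    by_contra hiF
    have h2 : Finsupp.mapDomain (Subtype.val : {i // i ∈ F} → ι) a i = 0 := by
      apply Finsupp.mapDomain_of_notMem_range
      rintro ⟨⟨l, hl⟩, rfl⟩
      exact hiF hl
    simp [supp] at hi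
    exact hi h2
  have hcoef : ∀ d : ℕ, homogeneousComponent d (rename (Subtype.val : {i // i ∈ F} → ι) G) = 0 := by
    intro d
    set P := homogeneousComponent d (rename (Subtype.val : {i // i ∈ F} → ι) G) with hP
    have h0 := hM.hom _ hren d
    have hsP : ∀ b ∈ P.support, deg (fun i => b i) = d ∧ supp (fun i => b i) ∈ Δ := by
      intro b hb
      rw [mem_support_iff, hP, coeff_homogeneousComponent] at hb
      split_ifs at hb with h1
      · refine ⟨?_, hsub b (mem_support_iff.mpr hb)⟩
        rw [← h1, Finsupp.degree_eq_sum]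
        rfl
      · exact absurd rfl hb
    have hind := (hG.indep d).comp
      (fun b : {b : ι →₀ ℕ // deg (fun i => b i) = d ∧ supp (fun i => b i) ∈ Δ} =>
        ⟨fun i => b.1 i, b.2⟩) (by
        intro a b hab
        apply Subtype.ext
        apply Finsupp.ext
        intro i
        exact congrFun (congrArg Subtype.val hab) i)
    rw [linearIndependent_iff'] at hind
    have h2 : ∑ b ∈ P.support, coeff b P • mon x (fun i => b i) = 0 := by
      rw [← h0, hP.symm]
      conv_rhs => rw [as_sum P]
      rw [map_sum]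
      apply Finset.sum_congr rfl
      intro b _
      have h5 : monomial b (coeff b P) = coeff b P • monomial b (1 : K) := by
        rw [smul_monomial, smul_eq_mul, mul_one]
      rw [h5, map_smul, mon_eq]
    have h3 := hind (P.support.subtype
      (fun b => deg (fun i => b i) = d ∧ supp (fun i => b i) ∈ Δ)) (fun b => coeff b.1 P) (by
        rw [← h2]
        exact Finset.sum_subtype_of_mem (fun b : ι →₀ ℕ => coeff b P • mon x (fun i => b i)) hsP)
    ext b
    rw [coeff_zero]
    by_contra hb
    have hb' := mem_support_iff.mpr hb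
    exact hb (h3 ⟨b, hsP b hb'⟩ (Finset.mem_subtype.mpr hb'))
  have hz : rename (Subtype.val : {i // i ∈ F} → ι) G = 0 := by
    rw [← sum_homogeneousComponent (rename (Subtype.val : {i // i ∈ F} → ι) G)]
    exact Finset.sum_eq_zero (fun d _ => hcoef d)
  exact rename_injective _ Subtype.val_injective (by rw [hz, map_zero])

theorem card_le {w : ι → ℕ} {Δ : Finset (Finset ι)} {D : ℕ} (hM : Model K x) (hG : Grob K x w Δ)
    (hD : Algebra.trdeg K L = (D : Cardinal)) {F : Finset ι} (hF : F ∈ Δ) : F.card ≤ D := by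
  have h := (indepF hM hG hF).cardinalMk_le_trdeg
  rw [hD] at h
  simpa using h

end trdeg

/-! ## The theorem over an algebraically closed field of characteristic `p` -/

/-- THMP: links and the complex are acyclic, over an algebraically closed field. -/
def S_THMP : Prop :=
  ∀ (k L ι : Type) [Field k] [IsAlgClosed k] [Field L] [Algebra k L] [LinearOrder ι] [Fintype ι]
    [Nonempty ι] (p : ℕ) (x : ι → L) (w : ι → ℕ) (Δ : Finset (Finset ι)), p.Prime → CharP k p →
    Model k x → SmoothCharts k x → Grob k x w Δ →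
    (∀ F ∈ Δ, ∀ j : ℕ, (∃ G ∈ Δ, G ∩ F = ∅ ∧ G ∪ F ∈ Δ ∧ j < G.card) → LkExact k Δ F j) ∧
    (∀ j : ℕ, LkExact k Δ ∅ j)

end Pool.Agent.Y234.GS
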