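import Pool.Agent.Y234.GS.Asm1
import Pool.Agent.Y340.GS.Ref
import Pool.Agent.Y968.GS.Top
import Pool.Agent.Y394.GS.Pol
import Pool.Agent.Y37.GS.Fin
import Pool.Agent.Y333.GS.Sym
import Pool.Agent.Y571.GS.Gro1
import Pool.Agent.Y978.GS.Gro
import Pool.Agent.Y978.GS.Gro2
import Pool.Agent.Y41.GS.Conn
import Pool.Agent.Y328.GS.NulTwl

set_option autoImplicit false

namespace Pool.Agent.Y234.GS

open MvPolynomial

theorem gro1' : S_GRO1 := Pool.Agent.Y571.GS.gro1 Pool.Agent.Y37.GS.fin Pool.Agent.Y333.GS.sym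
theorem gro2' : S_GRO2 :=
  Pool.Agent.Y978.GS.gro2 Pool.Agent.Y37.GS.fin Pool.Agent.Y333.GS.sym gro1'
theorem gro3' : S_GRO3 := Pool.Agent.Y978.GS.gro3 Pool.Agent.Y37.GS.fin Pool.Agent.Y333.GS.sym
theorem conn' : S_CONN := Pool.Agent.Y41.GS.conn Pool.Agent.Y333.GS.sym gro1'

section basic

variable {K L ι : Type} [Field K] [Field L] [Algebra K L] [Fintype ι] [LinearOrder ι] {x : ι → L}
  {w : ι → ℕ}

theorem wcocyc_cocyc {m s : ℤ} {j : ℕ} {c : Finset ι → L} (h : WCocyc K x w m s j c) :
    Cocyc (VV K x) x m j c :=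
  ⟨fun S hS => Pool.Agent.Y978.GS.WSec_sub_Sec (h.1 S hS), h.2⟩

theorem memVV (i : ι) : x i ∈ VV K x := Submodule.subset_span ⟨i, rfl⟩

theorem cobd_add {m : ℤ} {j : ℕ} {c c' : Finset ι → L} (h : Cobd (VV K x) x m j c)
    (h' : Cobd (VV K x) x m j c') : Cobd (VV K x) x m j (fun S => c S + c' S) := by
  obtain ⟨b, hb, e⟩ := h
  obtain ⟨b', hb', e'⟩ := h'
  refine ⟨b + b', fun S hS => Pool.Agent.Y968.GS.sec_add _ _ memVV m S _ _ (hb S hS) (hb' S hS),
    fun S hS => ?_⟩
  change c S + c' S = _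
  rw [Pool.Agent.Y968.GS.dd_add, e S hS, e' S hS]

theorem cobd_smul {m : ℤ} {j : ℕ} {c : Finset ι → L} (r : K) (h : Cobd (VV K x) x m j c) :
    Cobd (VV K x) x m j (fun S => r • c S) := by
  obtain ⟨b, hb, e⟩ := h
  refine ⟨fun S => r • b S, fun S hS => Pool.Agent.Y968.GS.sec_smul _ _ m S _ _ (hb S hS),
    fun S hS => ?_⟩
  change r • c S = _
  rw [Pool.Agent.Y968.GS.dd_smul, e S hS]

theorem cobd_mul {m : ℤ} {j : ℕ} {c : Finset ι → L} {n : ℕ} {z : L} (hz : z ∈ (VV K x) ^ n)
    (h : Cobd (VV K x) x m j c) : Cobd (VV K x) x (m + n) j (fun S => z * c S) := by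
  obtain ⟨b, hb, e⟩ := h
  refine ⟨fun S => z * b S, fun S hS => Pool.Agent.Y968.GS.sec_mul _ _ m S n _ _ hz (hb S hS),
    fun S hS => ?_⟩
  change z * c S = _
  rw [Pool.Agent.Y968.GS.dd_mul, e S hS]

theorem cobd_zero {m : ℤ} {j : ℕ} (hj : 2 ≤ j) :
    Cobd (VV K x) x m j (fun _ : Finset ι => (0 : L)) := by
  refine ⟨fun _ => 0, fun S hS => Pool.Agent.Y340.GS.sec_zero _ _ ?_, fun S _ => ?_⟩
  · rw [← Finset.card_pos, hS]; omega
  · simp [dd]

/-- All forms of large degree kill the cohomology below the top level. -/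
theorem kill [IsAlgClosed K] (hEK : S_EK) (hTF : S_TFALL) {p D : ℕ} (hp : p.Prime)
    (hcp : CharP K p) (hD : 1 ≤ D) (hM : Model K x) (hS : SmoothCharts K x)
    (htr : Algebra.trdeg K L = (D : Cardinal)) :
    ∃ N0 : ℕ, ∀ N ≥ N0, ∀ z ∈ (VV K x) ^ N, ∀ (m : ℤ) (j : ℕ) (c : Finset ι → L), 2 ≤ j → j < D →
      Cocyc (VV K x) x m j c → Cobd (VV K x) x (m + N) j (fun S => z * c S) := by
  let P : ℕ → Submodule K L := fun n =>
    { carrier := {g | ∀ (m : ℤ) (j : ℕ) (c : Finset ι → L), 2 ≤ j → j < D →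
        Cocyc (VV K x) x m j c → Cobd (VV K x) x (m + n) j (fun S => g * c S)}
      add_mem' := by
        intro a b ha hb m j c hj hjD hc
        have h := cobd_add (ha m j c hj hjD hc) (hb m j c hj hjD hc)
        simpa only [add_mul] using h
      zero_mem' := by
        intro m j c hj hjD hc
        simpa only [zero_mul] using cobd_zero hj
      smul_mem' := by
        intro r a ha m j c hj hjD hc
        have h := cobd_smul r (ha m j c hj hjD hc)
        simpa only [smul_mul_assoc] using h }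
  obtain ⟨N0, hN0⟩ := Pool.Agent.Y328.GS.nul K L ι x P (by
    intro n a ha i m j c hj hjD hc
    have h1 : x i ∈ (VV K x) ^ 1 := by rw [pow_one]; exact memVV i
    have h := cobd_mul h1 (ha m j c hj hjD hc)
    have e1 : m + (n : ℤ) + ((1 : ℕ) : ℤ) = m + ((n + 1 : ℕ) : ℤ) := by push_cast; ring
    rw [e1] at h
    simpa only [mul_assoc] using h) (by
    intro y hy
    obtain ⟨R, g, hg, h⟩ := hEK K L ι x p D y hp hcp hM.ne (hTF K L ι x p D y hp hcp hD hM hS htr hy)
    exact ⟨R, g, hg, fun m j c hj hjD hc => h m j c hj hjD hc⟩)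
  exact ⟨N0, fun N hN z hz m j c hj hjD hc => hN0 N hN hz m j c hj hjD hc⟩

end basic

theorem pint (hKL : S_KL) (hH : S_HYPST) (hHI : S_HIGH) (hN : S_NND) : ∀ D, PInt D := by
  intro D
  induction D using Nat.strong_induction_on with
  | _ D ih =>
    intro k L ι _ _ _ _ _ _ p x w hp hcp hM hS htr hw hV j hj c hc
    rcases lt_trichotomy j D with h | h | h
    · exact hH D ih k L ι p x w hp hcp hM hS htr hw hV j hj h c hc
    · subst h
      exact hKL k L ι p j x w hp hcp hj hM hS htr hw c hc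
    · obtain ⟨⟨v, hv, hv2⟩, -, -⟩ := hN k L ι x D hM htr
      exact hHI k L ι x D _ hM.ne
        (fun l => Submodule.sum_mem _ (fun i _ => Submodule.smul_mem _ _ (memVV i)))
        (fun l => hv.ne_zero l) hv2 0 j hj h c (wcocyc_cocyc hc)

section tw

variable {K L ι : Type} [Field K] [Field L] [Algebra K L] [Fintype ι] [LinearOrder ι] {x : ι → L}
  {w : ι → ℕ} {Δ : Finset (Finset ι)}

/-- The multiple of the indicator function. -/
def indn (F : Finset ι) (n : ℕ) (i : ι) : ℕ := if i ∈ F then n else 0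

theorem supp_indn (F : Finset ι) (n : ℕ) (hn : n ≠ 0) : supp (indn F n) = F := by
  ext i
  simp [supp, indn, hn]

theorem deg_indn (F : Finset ι) (n : ℕ) : deg (indn F n) = n * F.card := by
  unfold deg indn
  rw [Finset.sum_ite_mem, Finset.univ_inter, Finset.sum_const, smul_eq_mul, mul_comm]

theorem indn_add (F : Finset ι) (n n' : ℕ) (i : ι) : indn F (n + n') i = indn F n i + indn F n' i := by
  unfold indn
  split_ifs <;> simp

theorem wt_indn_add (F : Finset ι) (n n' : ℕ) :
    wt w (indn F (n + n')) = wt w (indn F n) + wt w (indn F n') := by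
  unfold wt
  rw [← Finset.sum_add_distrib]
  exact Finset.sum_congr rfl (fun i _ => by rw [indn_add, mul_add])

theorem deg_indn_add (F : Finset ι) (n n' : ℕ) :
    deg (indn F (n + n')) = deg (indn F n) + deg (indn F n') := by
  unfold deg
  rw [← Finset.sum_add_distrib]
  exact Finset.sum_congr rfl (fun i _ => indn_add F n n' i)

theorem monz_natCast (b : ι → ℕ) : monz x (fun i => (b i : ℤ)) = mon x b := by
  unfold monz mon
  exact Finset.prod_congr rfl (fun i _ => zpow_natCast _ _)

theorem monz_mul (hx : ∀ i, x i ≠ 0) (b b' : ι → ℤ) :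
    monz x b * monz x b' = monz x (fun i => b i + b' i) := by
  unfold monz
  rw [← Finset.prod_mul_distrib]
  exact Finset.prod_congr rfl (fun i _ => (zpow_add₀ (hx i) _ _).symm)

theorem twF {D' : ℕ} (hkill : ∃ N0 : ℕ, ∀ N ≥ N0, ∀ z ∈ (VV K x) ^ N, ∀ (m : ℤ) (j : ℕ)
      (c : Finset ι → L), 2 ≤ j → j < D' →
      Cocyc (VV K x) x m j c → Cobd (VV K x) x (m + N) j (fun S => z * c S))
    (hM : Model K x) (hG : Grob K x w Δ) {F : Finset ι} (hF : F.Nonempty) {j : ℕ} (hj : 2 ≤ j)
    (hjD : j < D') : TwExact K Δ F j := by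
  intro γ h1 h2
  obtain ⟨N0, hN0⟩ := hkill
  obtain ⟨c, hc, hcs⟩ := gro1' K L ι x w Δ hM hG (indn F (N0 + 1)) j γ (by omega)
    (by rw [supp_indn F _ (by omega)]; exact h1) h2
  have hz : mon x (indn F N0) ∈ (VV K x) ^ deg (indn F N0) := Pool.Agent.Y978.GS.mon_mem_pow _
  have hdeg : N0 ≤ deg (indn F N0) := by
    rw [deg_indn]
    exact Nat.le_mul_of_pos_right _ hF.card_pos
  have hk := hN0 _ hdeg _ hz _ j c hj hjD (wcocyc_cocyc hc)
  have ed : -(deg (indn F (N0 + 1)) : ℤ) + (deg (indn F N0) : ℤ) = -(deg (indn F 1) : ℤ) := by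
    rw [deg_indn_add]; push_cast; ring
  have ew : -(wt w (indn F (N0 + 1)) : ℤ) + (wt w (indn F N0) : ℤ) = -(wt w (indn F 1) : ℤ) := by
    rw [wt_indn_add]; push_cast; ring
  rw [ed] at hk
  have hzW : ∀ S : Finset ι, mon x (indn F N0) ∈ WSec K x w (deg (indn F N0)) (wt w (indn F N0)) S := by
    intro S
    refine ⟨0, deg (indn F N0), by simp, ?_⟩
    rw [pow_zero, one_mul, Nat.cast_zero, zero_mul, add_zero]
    exact Pool.Agent.Y978.GS.mon_mem_WV rfl le_rfl
  have hmul : ∀ (S : Finset ι) (s : ℤ) (a : L), a ∈ WSec K x w (-(deg (indn F (N0 + 1)) : ℤ)) s S →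
      mon x (indn F N0) * a ∈ WSec K x w (-(deg (indn F 1) : ℤ)) (s + (wt w (indn F N0) : ℤ)) S := by
    intro S s a ha
    have h := Pool.Agent.Y333.GS.WSec_mul ha (hzW S)
    rw [ed] at h
    rwa [mul_comm] at h
  have hres := gro2' K L ι x w Δ hM hG (indn F 1) j γ (fun S => mon x (indn F N0) * c S) hj
    (by rw [supp_indn F _ one_ne_zero]; exact h1)
    ⟨fun S hS => by
      have h := hmul S _ _ (hc.1 S hS)
      rwa [ew] at h, fun S hS => by
      rw [Pool.Agent.Y968.GS.dd_mul, hc.2 S hS, mul_zero]⟩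
    (fun S hS hSj => by
      have h := hmul S _ _ (hcs S hS hSj)
      have e1 : -(wt w (indn F (N0 + 1)) : ℤ) - 1 + (wt w (indn F N0) : ℤ) =
          -(wt w (indn F 1) : ℤ) - 1 := by rw [← ew]; ring
      rw [e1, mul_sub, mul_smul_comm, ← monz_natCast, monz_mul hM.ne] at h
      have e2 : (fun i => (indn F N0 i : ℤ) + -(indn F (N0 + 1) i : ℤ)) =
          (fun i => -(indn F 1 i : ℤ)) := by
        funext i
        rw [indn_add]; push_cast; ring
      rw [e2, monz_natCast] at h
      exact h)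
    hk
  rw [supp_indn F _ one_ne_zero] at hres
  exact hres

/-- Exactness of a link at level zero. -/
theorem lk_zero {F : Finset ι} {i : ι} (hi : i ∉ F) (hiF : {i} ∪ F ∈ Δ) : LkExact K Δ F 0 := by
  intro γ h
  have h0 : dd γ {i} = 0 := h {i} (by
    rw [Finset.singleton_inter_of_notMem hi]) hiF (by simp)
  have h1 : γ ∅ = 0 := by
    unfold dd at h0
    simpa using h0
  refine ⟨fun _ => 0, fun G _ _ hG => ?_⟩
  rw [Finset.card_eq_zero.mp hG, h1]
  simp [dd]

/-- Exactness at level one. -/
theorem lk_one (hM : Model K x) (hG : Grob K x w Δ) : LkExact K Δ ∅ 1 := by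
  intro γ h
  have hc := conn' K L ι x w Δ hM hG (fun i => γ {i}) (by
    intro i j hij
    rcases lt_trichotomy i j with hlt | heq | hlt
    · have h0 : dd γ {i, j} = 0 := h {i, j} (by simp) (by simpa using hij) (by
        rw [Finset.card_pair hlt.ne])
      unfold dd at h0
      rw [Finset.sum_pair hlt.ne] at h0
      have e1 : ({i, j} : Finset ι).erase i = {j} := by
        ext l; simp only [Finset.mem_erase, Finset.mem_insert, Finset.mem_singleton]
        constructor
        · rintro ⟨h1, h2 | h2⟩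
          · exact absurd h2 h1
          · exact h2
        · rintro rfl
          exact ⟨hlt.ne', Or.inr rfl⟩
      have e2 : ({i, j} : Finset ι).erase j = {i} := by
        ext l; simp only [Finset.mem_erase, Finset.mem_insert, Finset.mem_singleton]
        constructor
        · rintro ⟨h1, h2 | h2⟩
          · exact h2
          · exact absurd h2 h1
        · rintro rfl
          exact ⟨hlt.ne, Or.inl rfl⟩
      have e3 : (({i, j} : Finset ι).filter (fun u => u < i)) = ∅ := by
        ext l; simp only [Finset.mem_filter, Finset.mem_insert, Finset.mem_singleton,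
          Finset.notMem_empty, iff_false, not_and]
        rintro (rfl | rfl)
        · exact lt_irrefl _
        · exact not_lt.mpr hlt.le
      have e4 : (({i, j} : Finset ι).filter (fun u => u < j)) = {i} := by
        ext l; simp only [Finset.mem_filter, Finset.mem_insert, Finset.mem_singleton]
        constructor
        · rintro ⟨rfl | rfl, h2⟩
          · rfl
          · exact absurd h2 (lt_irrefl _)
        · rintro rfl
          exact ⟨Or.inl rfl, hlt⟩
      rw [e1, e2, e3, e4] at h0
      simp at h0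
      exact (sub_eq_zero.mp (by rw [← h0]; ring)).symm
    · rw [heq]
    · have h0 : dd γ {j, i} = 0 := h {j, i} (by simp) (by
        rw [Finset.union_empty, Finset.pair_comm]; exact hij) (by
        rw [Finset.card_pair hlt.ne])
      unfold dd at h0
      rw [Finset.sum_pair hlt.ne] at h0
      have e1 : ({j, i} : Finset ι).erase j = {i} := by
        ext l; simp only [Finset.mem_erase, Finset.mem_insert, Finset.mem_singleton]
        constructor
        · rintro ⟨h1, h2 | h2⟩
          · exact absurd h2 h1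
          · exact h2
        · rintro rfl
          exact ⟨hlt.ne', Or.inr rfl⟩
      have e2 : ({j, i} : Finset ι).erase i = {j} := by
        ext l; simp only [Finset.mem_erase, Finset.mem_insert, Finset.mem_singleton]
        constructor
        · rintro ⟨h1, h2 | h2⟩
          · exact h2
          · exact absurd h2 h1
        · rintro rfl
          exact ⟨hlt.ne, Or.inl rfl⟩
      have e3 : (({j, i} : Finset ι).filter (fun u => u < j)) = ∅ := by
        ext l; simp only [Finset.mem_filter, Finset.mem_insert, Finset.mem_singleton,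
          Finset.notMem_empty, iff_false, not_and]
        rintro (rfl | rfl)
        · exact lt_irrefl _
        · exact not_lt.mpr hlt.le
      have e4 : (({j, i} : Finset ι).filter (fun u => u < i)) = {j} := by
        ext l; simp only [Finset.mem_filter, Finset.mem_insert, Finset.mem_singleton]
        constructor
        · rintro ⟨rfl | rfl, h2⟩
          · rfl
          · exact absurd h2 (lt_irrefl _)
        · rintro rfl
          exact ⟨Or.inl rfl, hlt⟩
      rw [e1, e2, e3, e4] at h0
      simp at h0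
      exact sub_eq_zero.mp (by rw [← h0]; ring))
  by_cases hne : Nonempty ι
  · obtain ⟨i0⟩ := hne
    refine ⟨fun _ => γ {i0}, fun G _ _ hG => ?_⟩
    obtain ⟨i, rfl⟩ := Finset.card_eq_one.mp hG
    rw [hc i i0]
    simp [dd, Finset.filter_singleton]
  · refine ⟨fun _ => 0, fun G _ _ hG => ?_⟩
    obtain ⟨i, rfl⟩ := Finset.card_eq_one.mp hG
    exact absurd ⟨i⟩ hne

end tw

theorem thmp (hKL : S_KL) (hH : S_HYPST) (hHI : S_HIGH) (hN : S_NND) (hEK : S_EK)
    (hTF : S_TFALL) : S_THMP := by
  intro k L ι _ _ _ _ _ _ _ p x w Δ hp hcp hM hS hG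
  obtain ⟨D, htr⟩ := trdeg_nat hM
  have hD1 : 1 ≤ D := by
    obtain ⟨i⟩ := (inferInstance : Nonempty ι)
    have h := card_le hM hG htr (hG.sing i)
    simpa using h
  have hkill := kill hEK hTF hp hcp hD1 hM hS htr
  have htwF : ∀ F : Finset ι, F.Nonempty → ∀ j, 2 ≤ j → j < D → TwExact k Δ F j :=
    fun F hF j hj hjD => twF hkill hM hG hF hj hjD
  have hV : ∀ m : ℤ, m < 0 → ∀ q : ℕ, 2 ≤ q → q < D → Van (VV k x) x m q := by
    intro m hm q hq hqD
    refine gro3' k L ι x w Δ hM hG m q hq (fun a ha => htwF _ ?_ q hq hqD)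
    rw [Finset.nonempty_iff_ne_empty]
    intro h0
    have h1 : deg a = 0 := by
      unfold deg
      refine Finset.sum_eq_zero (fun i _ => ?_)
      by_contra hne
      have h2 : i ∈ supp a := by simp [supp, hne]
      rw [h0] at h2
      exact absurd h2 (Finset.notMem_empty _)
    rw [h1] at ha
    simp at ha
    omega
  have htw0 : ∀ j, 2 ≤ j → TwExact k Δ ∅ j := by
    intro j hj γ h1 h2
    have hs0 : supp (fun _ : ι => 0) = ∅ := by
      ext i; simp [supp]
    have hd0 : deg (fun _ : ι => 0) = 0 := by simp [deg]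
    have hw0 : wt w (fun _ : ι => 0) = 0 := by simp [wt]
    obtain ⟨c, hc, hcs⟩ := gro1' k L ι x w Δ hM hG (fun _ => 0) j γ (by omega)
      (by rw [hs0]; exact h1) h2
    have hc' : WCocyc k x w 0 0 j c := by
      rw [hd0, hw0] at hc
      simpa using hc
    have hb := pint hKL hH hHI hN D k L ι p x w hp hcp hM hS htr hG.winj hV j hj c hc'
    have hres := gro2' k L ι x w Δ hM hG (fun _ => 0) j γ c hj (by rw [hs0]; exact h1) hc hcs
      (by rw [hd0]; simpa using hb)
    rw [hs0] at hres
    exact hres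
  have hE : ∀ j : ℕ, LkExact k Δ ∅ j := by
    intro j
    have hemp : (∅ : Finset ι) ∈ Δ := by
      obtain ⟨i⟩ := (inferInstance : Nonempty ι)
      exact hG.down _ (hG.sing i) _ (Finset.empty_subset _)
    match j with
    | 0 =>
      obtain ⟨i⟩ := (inferInstance : Nonempty ι)
      exact lk_zero (i := i) (Finset.notMem_empty i) (by
        rw [Finset.union_empty]; exact hG.sing i)
    | 1 => exact lk_one hM hG
    | (j + 2) =>
      refine Pool.Agent.Y328.GS.twl k ι Δ ∅ (j + 2) hG.down hemp ?_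
      exact htw0 _ (by simp)
  refine ⟨fun F hF j hj => ?_, hE⟩
  rcases Finset.eq_empty_or_nonempty F with rfl | hFne
  · exact hE j
  obtain ⟨G, hG1, hGF, hGU, hjG⟩ := hj
  have hcard : G.card + F.card ≤ D := by
    rw [← Finset.card_union_of_disjoint (Finset.disjoint_iff_inter_eq_empty.mpr hGF)]
    exact card_le hM hG htr hGU
  have hF1 : 1 ≤ F.card := hFne.card_pos
  by_cases h2 : 2 ≤ j + F.card
  · exact Pool.Agent.Y328.GS.twl k ι Δ F j hG.down hF (htwF F hFne _ h2 (by omega))
  · have hj0 : j = 0 := by omega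
    subst hj0
    obtain ⟨i, hi⟩ := Finset.card_pos.mp hjG
    have hiF : i ∉ F := by
      intro h
      have h3 : i ∈ G ∩ F := Finset.mem_inter.mpr ⟨hi, h⟩
      rw [hGF] at h3
      exact absurd h3 (Finset.notMem_empty _)
    exact lk_zero hiF (hG.down _ hGU _ (Finset.union_subset_union_left
      (Finset.singleton_subset_iff.mpr hi)))

end Pool.Agent.Y234.GS
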