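import Pool.Agent.Y234.GS.Asm2
import Pool.Agent.Y864.GS.Rank

set_option autoImplicit false

namespace Pool.Agent.Y234.GS

open MvPolynomial

/-- The theorem for Groebner data over any field, in the form of the exactness over some
algebraically closed field of positive characteristic. -/
theorem exact_of_grob (hTH : S_THMP) (hDOM : S_DOM) (hFR : S_FRAC) (hDP : S_DESCP)
    (hD0 : S_DESC0) (K A ι : Type) [Field K] [CommRing A] [IsDomain A] [Algebra K A]
    [LinearOrder ι] [Fintype ι] [Nonempty ι] (x : ι → A) (w : ι → ℕ) (Δ : Finset (Finset ι))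
    (hR : RMod K x) (hG : Grob K x w Δ) (hS : RSmooth K x) :
    ∃ (p : ℕ) (k : Type) (_ : Field k), p.Prime ∧ CharP k p ∧ (CharP K p ∨ CharZero K) ∧
      (∀ F ∈ Δ, ∀ j : ℕ, (∃ G ∈ Δ, G ∩ F = ∅ ∧ G ∪ F ∈ Δ ∧ j < G.card) → LkExact k Δ F j) ∧
      (∀ j : ℕ, LkExact k Δ ∅ j) := by
  classical
  -- connectedness
  have hconn : ∀ P : ι → Prop, (∀ i j, {i, j} ∈ Δ → (P i ↔ P j)) → ∀ i j, (P i ↔ P j) := by
    intro P hP i j
    obtain ⟨hM', hG', -⟩ := hFR K A ι x w Δ hR hG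
    have h := conn' K (FractionRing A) ι _ w Δ hM' hG' (fun i => if P i then 1 else 0) (by
      intro i j hij
      simp only [hP i j hij]) i j
    by_cases h1 : P i <;> by_cases h2 : P j <;> simp_all
  -- reduction to an algebraically closed field
  have hred : ∃ (p : ℕ) (k : Type) (_ : Field k) (_ : IsAlgClosed k) (A' : Type)
      (_ : CommRing A') (_ : Algebra k A') (x' : ι → A'), p.Prime ∧ CharP k p ∧
      (CharP K p ∨ CharZero K) ∧ RMod k x' ∧ Grob k x' w Δ ∧ RSmooth k x' := by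
    obtain ⟨p, hp⟩ := CharP.exists K
    rcases CharP.char_is_prime_or_zero K p with hpp | hp0
    · obtain ⟨k, i1, i2, A', i3, i4, x', h1, h2, h3, h4⟩ := hDP K A ι x w Δ p hp hR hG hS
      exact ⟨p, k, i1, i2, A', i3, i4, x', hpp, h1, Or.inl hp, h2, h3, h4⟩
    · subst hp0
      haveI : CharZero K := CharP.charP_to_charZero K
      obtain ⟨p, k, i1, i2, A', i3, i4, x', h0, h1, h2, h3, h4⟩ := hD0 K A ι x w Δ hR hG hS
      exact ⟨p, k, i1, i2, A', i3, i4, x', h0, h1, Or.inr inferInstance, h2, h3, h4⟩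
  obtain ⟨p, k, i1, i2, A', i3, i4, x', hpp, hcp, hK, hR', hG', hS'⟩ := hred
  haveI : IsDomain A' := hDOM k A' ι x' w Δ hR' hG' hS' hconn
  obtain ⟨hM, hGF, hSF⟩ := hFR k A' ι x' w Δ hR' hG'
  obtain ⟨h1, h2⟩ := hTH k (FractionRing A') ι p _ w Δ hpp hcp hM (hSF hS') hGF
  exact ⟨p, k, i1, hpp, hcp, hK, h1, h2⟩

end Pool.Agent.Y234.GS
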