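import Pool.Agent.Y234.GS.Asm3

set_option autoImplicit false

namespace Pool.Agent.Y234.GS

open MvPolynomial

universe v

theorem final (hTH : S_THMP) (hDOM : S_DOM) (hFR : S_FRAC) (hDP : S_DESCP)
    (hD0 : S_DESC0) (hWT : S_WT.{v}) (K : Type) [Field K] (n : ℕ) (Δ : Finset (Finset (Fin n)))
    (hdown : ∀ F ∈ Δ, ∀ G : Finset (Fin n), G ⊆ F → G ∈ Δ)
    (hex : ∃ (I : Ideal (MvPolynomial (Fin n) K)) (ord : MonomialOrder.{0, v} (Fin n)),
      (∀ f ∈ I, ∀ d : ℕ, MvPolynomial.homogeneousComponent d f ∈ I) ∧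
      I.IsPrime ∧
      (∃ i : Fin n, MvPolynomial.X i ∉ I) ∧
      (∀ i : Fin n, Algebra.Smooth K
        (Localization.Away (Ideal.Quotient.mk I (MvPolynomial.X i)))) ∧
      Ideal.span {p : MvPolynomial (Fin n) K | ∃ f ∈ I, f ≠ 0 ∧
          p = MvPolynomial.monomial (ord.degree f) (1 : K)} =
        Ideal.span {p : MvPolynomial (Fin n) K | ∃ S : Finset (Fin n), S ∉ Δ ∧
          p = MvPolynomial.monomial (∑ i ∈ S, Finsupp.single i 1) (1 : K)}) :
    (∀ F ∈ Δ, ∀ k : ℕ,
          (∃ G ∈ Δ, G ∩ F = ∅ ∧ G ∪ F ∈ Δ ∧ k < G.card) →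
          ((Δ.filter (fun G => G ∩ F = ∅ ∧ G ∪ F ∈ Δ)).filter
              (fun G => G.card = k)).card =
            (bmat K (Δ.filter (fun G => G ∩ F = ∅ ∧ G ∪ F ∈ Δ)) k).rank +
              (if k = 0 then 0 else
                (bmat K (Δ.filter (fun G => G ∩ F = ∅ ∧ G ∪ F ∈ Δ)) (k - 1)).rank)) ∧
       (∀ k : ℕ,
          (Δ.filter (fun G => G.card = k)).card =
            (bmat K Δ k).rank + (if k = 0 then 0 else (bmat K Δ (k - 1)).rank)) := by
  classical
  obtain ⟨I, ord, hhom, hprime, ⟨i0, hi0⟩, hsm, hspan⟩ := hex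
  obtain ⟨w, hR, hG⟩ := hWT K n Δ I ord hdown hhom hprime hspan
  -- there is a vertex
  have hne : Nonempty (Vert Δ) := by
    by_contra hem
    rw [not_nonempty_iff] at hem
    have h1 : Ideal.Quotient.mk I (X i0) ∈ Algebra.adjoin K
        (Set.range (fun i : Vert Δ => Ideal.Quotient.mk I (X i.1))) := by
      rw [hR.gen]; trivial
    rw [Set.range_eq_empty, Algebra.adjoin_empty, Algebra.mem_bot] at h1
    obtain ⟨c, hc⟩ := h1
    have h2 : X i0 - C c ∈ I := by
      rw [← Ideal.Quotient.eq, ← hc]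
      rfl
    have h3 := hhom _ h2 1
    rw [map_sub, homogeneousComponent_of_mem (isHomogeneous_C (Fin n) c), if_neg one_ne_zero,
      sub_zero, homogeneousComponent_of_mem (isHomogeneous_X K i0), if_pos rfl] at h3
    exact hi0 h3
  haveI : IsDomain (MvPolynomial (Fin n) K ⧸ I) := Ideal.Quotient.isDomain I
  have hsub : ∀ F ∈ Δ, ∃ F' : Finset (Vert Δ), F' ∈ subc Δ ∧
      F'.map (Function.Embedding.subtype _) = F := by
    intro F hF
    have hv : ∀ i ∈ F, ({i} : Finset (Fin n)) ∈ Δ := fun i hi =>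
      hdown F hF _ (Finset.singleton_subset_iff.mpr hi)
    have e : (F.subtype (fun i => ({i} : Finset (Fin n)) ∈ Δ)).map (Function.Embedding.subtype _)
        = F := by
      rw [Finset.subtype_map]
      exact Finset.filter_true_of_mem hv
    refine ⟨F.subtype _, ?_, e⟩
    unfold subc
    rw [Finset.mem_filter]
    exact ⟨Finset.mem_univ _, by rw [e]; exact hF⟩
  obtain ⟨p, k, i1, hpp, hcp, hK, hlk, hacy⟩ := exact_of_grob hTH hDOM hFR hDP hD0 K
    (MvPolynomial (Fin n) K ⧸ I) (Vert Δ) _ w (subc Δ) hR hG (fun i => hsm i.1)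
  constructor
  · intro F hF j hj
    obtain ⟨F', hF', rfl⟩ := hsub F hF
    obtain ⟨G, hG1, hG2, hG3, hG4⟩ := hj
    obtain ⟨G', hG', rfl⟩ := hsub G hG1
    refine Pool.Agent.Y864.GS.rank k K p n Δ F' j hpp hcp hK hdown hF' (hlk F' hF' j
      ⟨G', hG', ?_, ?_, ?_⟩)
    · rw [← Finset.map_inter] at hG2
      exact Finset.map_eq_empty.mp hG2
    · unfold subc
      rw [Finset.mem_filter, Finset.map_union]
      exact ⟨Finset.mem_univ _, hG3⟩
    · rwa [Finset.card_map] at hG4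
  · intro j
    have hemp : (∅ : Finset (Vert Δ)) ∈ subc Δ := by
      obtain ⟨i⟩ := hne
      exact hG.down _ (hG.sing i) _ (Finset.empty_subset _)
    have h := Pool.Agent.Y864.GS.rank k K p n Δ ∅ j hpp hcp hK hdown hemp (hacy j)
    have e : Δ.filter (fun G => G ∩ (∅ : Finset (Vert Δ)).map (Function.Embedding.subtype _) = ∅ ∧
        G ∪ (∅ : Finset (Vert Δ)).map (Function.Embedding.subtype _) ∈ Δ) = Δ := by
      apply Finset.filter_true_of_mem
      intro G hG
      rw [Finset.map_empty, Finset.inter_empty, Finset.union_empty]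
      exact ⟨rfl, hG⟩
    rw [e] at h
    exact h

end Pool.Agent.Y234.GS
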