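import Mathlib

/-!
# Project GS: definitions

Cech complexes of a graded ring inside a field.  `W` is the module of the elements of degree one,
`f` a family of nonzero elements of `W`; `Sec W f m S` are the sections of degree `m` over the open
set where the product of the `f i`, `i ∈ S`, does not vanish.  Cochains of level `j` are functions on
the finsets with `j` elements, so that level `j` corresponds to the local cohomology `H^j` at the
irrelevant ideal (for `j ≥ 2`).
-/

set_option autoImplicit false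

namespace Pool.Agent.Y234.GS

open MvPolynomial

section cech

variable {ι L : Type} [LinearOrder ι]

/-- The alternating coboundary of a function on finsets. -/
noncomputable def dd [AddCommGroup L] (c : Finset ι → L) (S : Finset ι) : L :=
  ∑ i ∈ S, ((-1 : ℤ) ^ (S.filter (fun u => u < i)).card) • c (S.erase i)

variable {O : Type} [CommRing O] [Field L] [Algebra O L]

/-- Sections of degree `m` over the open set `∏ i ∈ S, f i ≠ 0`. -/
def Sec (W : Submodule O L) (f : ι → L) (m : ℤ) (S : Finset ι) : Set L :=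
  {a | ∃ N e : ℕ, (e : ℤ) = m + N * S.card ∧ (∏ i ∈ S, f i) ^ N * a ∈ W ^ e}

/-- Cochains of level `j` and degree `m`. -/
def Coch (W : Submodule O L) (f : ι → L) (m : ℤ) (j : ℕ) (c : Finset ι → L) : Prop :=
  ∀ S : Finset ι, S.card = j → c S ∈ Sec W f m S

/-- Cocycles of level `j` and degree `m`. -/
def Cocyc (W : Submodule O L) (f : ι → L) (m : ℤ) (j : ℕ) (c : Finset ι → L) : Prop :=
  Coch W f m j c ∧ ∀ S : Finset ι, S.card = j + 1 → dd c S = 0

/-- Coboundaries of level `j` and degree `m` (used for `2 ≤ j`). -/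
def Cobd (W : Submodule O L) (f : ι → L) (m : ℤ) (j : ℕ) (c : Finset ι → L) : Prop :=
  ∃ b : Finset ι → L, Coch W f m (j - 1) b ∧ ∀ S : Finset ι, S.card = j → c S = dd b S

/-- Vanishing of the cohomology of level `j` and degree `m`. -/
def Van (W : Submodule O L) (f : ι → L) (m : ℤ) (j : ℕ) : Prop :=
  ∀ c : Finset ι → L, Cocyc W f m j c → Cobd W f m j c

/-- The `f i` have no common zero: `W ^ (N + 1) = ∑ f i * W ^ N` for some `N`. -/
def Cover [Fintype ι] (W : Submodule O L) (f : ι → L) : Prop :=
  ∃ N : ℕ, ∀ a ∈ W ^ (N + 1), ∃ r : ι → L, (∀ i, r i ∈ W ^ N) ∧ a = ∑ i, f i * r i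

/-- Coboundaries of top level (`f` indexed by `Fin D`, level `D`): sums of sections over the open
sets of the finsets with `D - 1` elements. -/
def Bd {D : ℕ} (W : Submodule O L) (f : Fin D → L) (m : ℤ) (v : L) : Prop :=
  ∃ r : Fin D → L, (∀ k, r k ∈ Sec W f m (Finset.univ.erase k)) ∧ v = ∑ k, r k

/-- `v` is the top component (on the family `ψ`) of an extension of the cocycle `c` (on the family
`x`, level `D`) to a cocycle on the union of the families `x` and `ψ`. -/
def Rep {D : ℕ} [Fintype ι] (W : Submodule O L) (x : ι → L) (ψ : Fin D → L) (m : ℤ)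
    (c : Finset ι → L) (v : L) : Prop :=
  ∃ h : Finset (ι ⊕ₗ Fin D) → L,
    Cocyc W (fun k => Sum.elim x ψ (ofLex k)) m D h ∧
    (∀ S : Finset ι, S.card = D →
      h (S.map ⟨fun i => toLex (Sum.inl i), fun a b hab => by
        simpa using congrArg ofLex hab⟩) = c S) ∧
    h ((Finset.univ : Finset (Fin D)).map ⟨fun i => toLex (Sum.inr i), fun a b hab => by
        simpa using congrArg ofLex hab⟩) = v

end cech

section model

variable {ι : Type} [Fintype ι]

/-- Monomials. -/
def mon {A : Type} [CommMonoid A] (x : ι → A) (b : ι → ℕ) : A := ∏ i, x i ^ b i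

/-- Laurent monomials. -/
def monz {L : Type} [Field L] (x : ι → L) (b : ι → ℤ) : L := ∏ i, x i ^ b i

/-- The degree of an exponent. -/
def deg (b : ι → ℕ) : ℕ := ∑ i, b i

/-- The weight of an exponent. -/
def wt (w : ι → ℕ) (b : ι → ℕ) : ℕ := ∑ i, w i * b i

/-- The degree of an exponent. -/
def degz (b : ι → ℤ) : ℤ := ∑ i, b i

/-- The weight of an exponent. -/
def wtz (w : ι → ℕ) (b : ι → ℤ) : ℤ := ∑ i, (w i : ℤ) * b i

/-- The support of an exponent. -/
def supp (b : ι → ℕ) : Finset ι := Finset.univ.filter (fun i => b i ≠ 0)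

/-- The span of the elements of degree one. -/
abbrev VV (K : Type) {A : Type} [CommRing K] [CommRing A] [Algebra K A] (x : ι → A) :
    Submodule K A :=
  Submodule.span K (Set.range x)

/-- `L` is the field of fractions of the graded domain `K[x]` generated by the nonzero elements
`x i` of degree one. -/
structure Model (K : Type) {L : Type} [Field K] [Field L] [Algebra K L] (x : ι → L) : Prop where
  ne : ∀ i, x i ≠ 0
  hom : ∀ G : MvPolynomial ι K, aeval x G = 0 → ∀ d : ℕ, aeval x (homogeneousComponent d G) = 0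
  gen : ∀ a : L, ∃ G H : MvPolynomial ι K, aeval x H ≠ 0 ∧ a * aeval x H = aeval x G

/-- The charts `K[x][1 / x i]` are smooth. -/
def SmoothCharts (K : Type) {L : Type} [Field K] [Field L] [Algebra K L] (x : ι → L) : Prop :=
  ∀ i, Algebra.Smooth K ↥(Algebra.adjoin K (insert (x i)⁻¹ (Set.range x)))

/-- Groebner data: the monomials with support in `Δ` are a basis of `K[x]`, and every other monomial
is a combination of standard monomials of the same degree and smaller weight. -/
structure Grob (K : Type) {A : Type} [Field K] [CommRing A] [Algebra K A]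
    (x : ι → A) (w : ι → ℕ) (Δ : Finset (Finset ι)) : Prop where
  down : ∀ F ∈ Δ, ∀ G : Finset ι, G ⊆ F → G ∈ Δ
  sing : ∀ i, {i} ∈ Δ
  winj : Function.Injective w
  indep : ∀ m : ℕ, LinearIndependent K
    (fun b : {b : ι → ℕ // deg b = m ∧ supp b ∈ Δ} => mon x b.1)
  red : ∀ b : ι → ℕ, supp b ∉ Δ → mon x b ∈ Submodule.span K
    {a : A | ∃ b' : ι → ℕ, deg b' = deg b ∧ supp b' ∈ Δ ∧ wt w b' < wt w b ∧ a = mon x b'}

/-- The span of the monomials of degree `e` and weight at most `s`. -/
def WV (K : Type) {L : Type} [Field K] [Field L] [Algebra K L] (x : ι → L) (w : ι → ℕ)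
    (e : ℕ) (s : ℤ) : Submodule K L :=
  Submodule.span K {a : L | ∃ b : ι → ℕ, deg b = e ∧ (wt w b : ℤ) ≤ s ∧ a = mon x b}

/-- Sections of degree `m` and weight at most `s`. -/
def WSec (K : Type) {L : Type} [Field K] [Field L] [Algebra K L] (x : ι → L) (w : ι → ℕ)
    (m s : ℤ) (S : Finset ι) : Set L :=
  {a | ∃ N e : ℕ, (e : ℤ) = m + N * S.card ∧
    (∏ i ∈ S, x i) ^ N * a ∈ WV K x w e (s + N * (∑ i ∈ S, (w i : ℤ)))}

variable [LinearOrder ι]

/-- Cochains of level `j`, degree `m` and weight at most `s`. -/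
def WCoch (K : Type) {L : Type} [Field K] [Field L] [Algebra K L] (x : ι → L) (w : ι → ℕ)
    (m s : ℤ) (j : ℕ) (c : Finset ι → L) : Prop :=
  ∀ S : Finset ι, S.card = j → c S ∈ WSec K x w m s S

/-- Cocycles of level `j`, degree `m` and weight at most `s`. -/
def WCocyc (K : Type) {L : Type} [Field K] [Field L] [Algebra K L] (x : ι → L) (w : ι → ℕ)
    (m s : ℤ) (j : ℕ) (c : Finset ι → L) : Prop :=
  WCoch K x w m s j c ∧ ∀ S : Finset ι, S.card = j + 1 → dd c S = 0

/-- Coboundaries of cochains of weight at most `s`. -/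
def WCobd (K : Type) {L : Type} [Field K] [Field L] [Algebra K L] (x : ι → L) (w : ι → ℕ)
    (m s : ℤ) (j : ℕ) (c : Finset ι → L) : Prop :=
  ∃ b : Finset ι → L, WCoch K x w m s (j - 1) b ∧ ∀ S : Finset ι, S.card = j → c S = dd b S

/-- Exactness at level `j` of the complex of functions on the faces of `Δ` that contain `F`. -/
def TwExact (K : Type) [Field K] (Δ : Finset (Finset ι)) (F : Finset ι) (j : ℕ) : Prop :=
  ∀ γ : Finset ι → K, (∀ S, γ S ≠ 0 → F ⊆ S ∧ S ∈ Δ) →
    (∀ T ∈ Δ, T.card = j + 1 → dd γ T = 0) →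
    ∃ β : Finset ι → K, (∀ S, β S ≠ 0 → F ⊆ S ∧ S ∈ Δ) ∧
      ∀ S ∈ Δ, F ⊆ S → S.card = j → γ S = dd β S

/-- Exactness at level `k` (faces with `k` elements) of the cochain complex of the link of `F`. -/
def LkExact (K : Type) [Field K] (Δ : Finset (Finset ι)) (F : Finset ι) (k : ℕ) : Prop :=
  ∀ γ : Finset ι → K,
    (∀ T : Finset ι, T ∩ F = ∅ → T ∪ F ∈ Δ → T.card = k + 1 → dd γ T = 0) →
    ∃ β : Finset ι → K, ∀ G : Finset ι, G ∩ F = ∅ → G ∪ F ∈ Δ → G.card = k → γ G = dd β G

/-- Every family of elements of `L` that is linearly independent over `k` is linearly independent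
over `k1` in `L1` (linear disjointness of `L` and `k1` over `k`). -/
def Disj (k k1 L L1 : Type) [Field k] [Field k1] [Field L] [Field L1] [Algebra k L]
    [Algebra k1 L1] [Algebra L L1] : Prop :=
  ∀ (n : ℕ) (v : Fin n → L), LinearIndependent k v →
    LinearIndependent k1 (fun i => algebraMap L L1 (v i))

/-- Closed points of the projective variety over `K`: common nontrivial zeros of the homogeneous
relations. -/
def IsPt (K : Type) {L : Type} [Field K] [Field L] [Algebra K L] (x : ι → L) (y : ι → K) : Prop :=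
  y ≠ 0 ∧ ∀ (d : ℕ) (G : MvPolynomial ι K), G.IsHomogeneous d → aeval x G = 0 → eval y G = 0

/-- The tangent space of the cone at `y`, in the space of all vectors over an extension field. -/
def Tan (K : Type) {L : Type} [Field K] [Field L] [Algebra K L] (x : ι → L) {K' : Type} [Field K']
    [Algebra K K'] (y : ι → K') : Submodule K' (ι → K') where
  carrier := {v | ∀ G : MvPolynomial ι K, aeval x G = 0 → ∑ l, aeval y (pderiv l G) * v l = 0}
  add_mem' := by
    intro a b ha hb G hG
    simp only [Pi.add_apply, mul_add, Finset.sum_add_distrib]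
    rw [ha G hG, hb G hG, add_zero]
  zero_mem' := by
    intro G _
    simp
  smul_mem' := by
    intro c a ha G hG
    have h := ha G hG
    simp only [Pi.smul_apply, smul_eq_mul]
    calc ∑ l, aeval y (pderiv l G) * (c * a l) = c * ∑ l, aeval y (pderiv l G) * a l := by
          rw [Finset.mul_sum]
          exact Finset.sum_congr rfl (fun l _ => by ring)
      _ = 0 := by rw [h, mul_zero]

/-- `g` is an element of degree `m` of `K[x]` that does not vanish at `y`. -/
def NZ (K : Type) {L : Type} [Field K] [Field L] [Algebra K L] (x : ι → L) (y : ι → K) (m : ℕ)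
    (g : L) : Prop :=
  ∃ G : MvPolynomial ι K, G.IsHomogeneous m ∧ aeval x G = g ∧ eval y G ≠ 0

/-- Trace frame at the point `y` (characteristic `p`): a Noether normalization by `D` linear forms
`θ`, a trace map `τ` to the polynomial ring in the `θ k`, and a local separability element: elements
`a i`, `b i` of degrees `r i`, `r' i` and `g` of degree `R`, not vanishing at `y`. -/
def TF (K : Type) {L : Type} [Field K] [Field L] [Algebra K L] (p : ℕ) (x : ι → L) (D : ℕ)
    (y : ι → K) : Prop :=
  ∃ (θ : Fin D → L) (τ : L →ₗ[K] L) (n R : ℕ) (r r' : Fin n → ℕ) (a b : Fin n → L) (g : L),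
    (∀ k, θ k ∈ VV K x) ∧ AlgebraicIndependent K θ ∧ Cover (VV K x) θ ∧
    (∀ (e : ℕ), ∀ z ∈ (VV K x) ^ e, τ z ∈ (VV K θ) ^ e) ∧
    (∀ k z, τ (θ k * z) = θ k * τ z) ∧ (∀ z, τ (z ^ p) = (τ z) ^ p) ∧
    (∀ i, r i + r' i = R ∧ a i ∈ (VV K x) ^ r i ∧ b i ∈ (VV K x) ^ r' i) ∧ NZ K x y R g ∧
    ∀ (e : ℕ) (z : L), g ^ p ^ e * z = ∑ i, a i ^ p ^ e * τ (b i ^ p ^ e * z)

end model

end Pool.Agent.Y234.GS
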