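import Pool.Agent.Y234.GS.StmC
import Pool.Agent.Y340.GS.Ref
import Pool.Agent.Y968.GS.Ext
import Pool.Agent.Y785.GS.Bas
import Pool.Agent.Y978.GS.Base

/-!
# Project GS: specialization to the components of a hyperplane section
-/

set_option autoImplicit false

namespace Pool.Agent.Y234.GS.Hyp

open MvPolynomial Pool.Agent.Y234.GS

section spec

variable (k' : Type) {L' M ι : Type} [Field k'] [Field L'] [Field M] [Algebra k' L']
  [Algebra k' M]

/-- Specialization: `b` is the value of `a` under `X ↦ Y`. -/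
def Spec (X : ι → L') (Y : ι → M) (a : L') (b : M) : Prop :=
  ∃ G H : MvPolynomial ι k', aeval Y H ≠ 0 ∧ aeval X H * a = aeval X G ∧
    aeval Y H * b = aeval Y G

variable {k'} {X : ι → L'} {Y : ι → M}

theorem spec_uniq (hXY : ∀ G : MvPolynomial ι k', aeval X G = 0 → aeval Y G = 0) {a : L'}
    {b b' : M} (h : Spec k' X Y a b) (h' : Spec k' X Y a b') : b = b' := by
  obtain ⟨G, H, h1, h2, h3⟩ := h
  obtain ⟨G', H', h1', h2', h3'⟩ := h'
  have h4 : aeval X (H' * G - H * G') = 0 := by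
    rw [map_sub, map_mul, map_mul, ← h2, ← h2']
    ring
  have h5 := hXY _ h4
  rw [map_sub, map_mul, map_mul, ← h3, ← h3'] at h5
  have h6 : aeval Y H' * aeval Y H * (b - b') = 0 := by
    rw [← h5]; ring
  rcases mul_eq_zero.mp h6 with h7 | h7
  · exact absurd h7 (mul_ne_zero h1' h1)
  · exact sub_eq_zero.mp h7

theorem spec_aeval (G : MvPolynomial ι k') : Spec k' X Y (aeval X G) (aeval Y G) :=
  ⟨G, 1, by simp, by simp, by simp⟩

theorem spec_zero : Spec k' X Y 0 0 := ⟨0, 1, by simp, by simp, by simp⟩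

theorem spec_add {a a' : L'} {b b' : M} (h : Spec k' X Y a b) (h' : Spec k' X Y a' b') :
    Spec k' X Y (a + a') (b + b') := by
  obtain ⟨G, H, h1, h2, h3⟩ := h
  obtain ⟨G', H', h1', h2', h3'⟩ := h'
  refine ⟨H' * G + H * G', H * H', ?_, ?_, ?_⟩
  · rw [map_mul]; exact mul_ne_zero h1 h1'
  · rw [map_add, map_mul, map_mul, map_mul, ← h2, ← h2']; ring
  · rw [map_add, map_mul, map_mul, map_mul, ← h3, ← h3']; ring

theorem spec_mul {a a' : L'} {b b' : M} (h : Spec k' X Y a b) (h' : Spec k' X Y a' b') :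
    Spec k' X Y (a * a') (b * b') := by
  obtain ⟨G, H, h1, h2, h3⟩ := h
  obtain ⟨G', H', h1', h2', h3'⟩ := h'
  refine ⟨G * G', H * H', ?_, ?_, ?_⟩
  · rw [map_mul]; exact mul_ne_zero h1 h1'
  · rw [map_mul, map_mul, ← h2, ← h2']; ring
  · rw [map_mul, map_mul, ← h3, ← h3']; ring

theorem spec_zsmul {a : L'} {b : M} (z : ℤ) (h : Spec k' X Y a b) :
    Spec k' X Y (z • a) (z • b) := by
  obtain ⟨G, H, h1, h2, h3⟩ := h
  refine ⟨z • G, H, h1, ?_, ?_⟩
  · rw [map_zsmul, ← h2, mul_smul_comm]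
  · rw [map_zsmul, ← h3, mul_smul_comm]

theorem spec_neg {a : L'} {b : M} (h : Spec k' X Y a b) : Spec k' X Y (-a) (-b) := by
  have := spec_zsmul (-1) h
  simpa using this

theorem spec_sub {a a' : L'} {b b' : M} (h : Spec k' X Y a b) (h' : Spec k' X Y a' b') :
    Spec k' X Y (a - a') (b - b') := by
  rw [sub_eq_add_neg, sub_eq_add_neg]
  exact spec_add h (spec_neg h')

theorem spec_sum {τ : Type} (s : Finset τ) (a : τ → L') (b : τ → M)
    (h : ∀ i ∈ s, Spec k' X Y (a i) (b i)) : Spec k' X Y (∑ i ∈ s, a i) (∑ i ∈ s, b i) := by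
  classical
  induction s using Finset.induction_on with
  | empty => simpa using spec_zero
  | insert i s hi ih =>
    rw [Finset.sum_insert hi, Finset.sum_insert hi]
    exact spec_add (h i (Finset.mem_insert_self i s))
      (ih (fun l hl => h l (Finset.mem_insert_of_mem hl)))

theorem spec_dd {κ : Type} [LinearOrder κ] {c : Finset κ → L'} {d : Finset κ → M} {T : Finset κ}
    (h : ∀ i ∈ T, Spec k' X Y (c (T.erase i)) (d (T.erase i))) :
    Spec k' X Y (dd c T) (dd d T) := by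
  unfold dd
  exact spec_sum T _ _ (fun i hi => spec_zsmul _ (h i hi))

theorem aeval_prod (S : Finset ι) (N : ℕ) :
    aeval X ((∏ i ∈ S, (MvPolynomial.X i : MvPolynomial ι k')) ^ N) = (∏ i ∈ S, X i) ^ N := by
  rw [map_pow, map_prod]
  simp

theorem aeval_mem_pow [Fintype ι] {e : ℕ} {G : MvPolynomial ι k'} (hG : G.IsHomogeneous e) :
    aeval X G ∈ (VV k' X) ^ e := by
  classical
  rw [MvPolynomial.aeval_def, MvPolynomial.eval₂_eq']
  refine Submodule.sum_mem _ fun d hd => ?_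
  rw [← Algebra.smul_def]
  refine Submodule.smul_mem _ _ ?_
  have h1 : deg (fun i => d i) = e := by
    have h2 := hG (mem_support_iff.1 hd)
    rw [← h2]
    simp [deg, Finsupp.weight_apply, Finsupp.sum_fintype]
  have h3 := Pool.Agent.Y978.GS.mon_mem_pow (K := k') (x := X) (fun i => d i)
  rw [h1] at h3
  exact h3

/-- The image of a section. -/
theorem sec_spec [Fintype ι] {m : ℤ} {S : Finset ι} {a : L'} (hX : ∀ i, X i ≠ 0)
    (ha : a ∈ Sec (VV k' X) X m S) (hS : ∀ i ∈ S, Y i ≠ 0) :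
    ∃ b ∈ Sec (VV k' Y) Y m S, Spec k' X Y a b := by
  obtain ⟨N, e, he, h⟩ := ha
  obtain ⟨G, hG, hGa⟩ := Pool.Agent.Y785.GS.exists_hom X h
  have hP : (∏ i ∈ S, Y i) ^ N ≠ 0 := pow_ne_zero _ (Finset.prod_ne_zero_iff.mpr hS)
  refine ⟨aeval Y G / (∏ i ∈ S, Y i) ^ N, ⟨N, e, he, ?_⟩, G,
    (∏ i ∈ S, (MvPolynomial.X i : MvPolynomial ι k')) ^ N, ?_, ?_, ?_⟩
  · rw [mul_div_cancel₀ _ hP]
    exact aeval_mem_pow hG
  · rw [aeval_prod]; exact hP
  · rw [aeval_prod, hGa]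
  · rw [aeval_prod, mul_div_cancel₀ _ hP]

end spec

section hsec

variable {k' L' ι : Type} [Field k'] [Field L'] [Algebra k' L'] [Fintype ι] {X : ι → L'}
  {u : ι → k'} {C : Type} {Lc : C → Type} [∀ c, Field (Lc c)] [∀ c, Algebra k' (Lc c)]
  {xc : ∀ c, ι → Lc c}

/-- Lifting of a family of sections. -/
theorem hs_lift (h : HSec X u Lc xc) (hX : ∀ i, X i ≠ 0) (m : ℤ) (S : Finset ι)
    (hS : S.Nonempty) (b : ∀ c, Lc c)
    (hb : ∀ c, (∀ i ∈ S, xc c i ≠ 0) → b c ∈ Sec (VV k' (xc c)) (xc c) m S) :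
    ∃ a ∈ Sec (VV k' X) X m S, ∀ c, (∀ i ∈ S, xc c i ≠ 0) → Spec k' X (xc c) a (b c) := by
  obtain ⟨N, e, G, he, hG, hc⟩ := h.2.2.2.1 m S b hS hb
  have hP : (∏ i ∈ S, X i) ^ N ≠ 0 := pow_ne_zero _ (Finset.prod_ne_zero_iff.mpr (fun i _ => hX i))
  refine ⟨aeval X G / (∏ i ∈ S, X i) ^ N, ⟨N, e, he, ?_⟩, fun c hcS => ⟨G,
    (∏ i ∈ S, (MvPolynomial.X i : MvPolynomial ι k')) ^ N, ?_, ?_, ?_⟩⟩
  · rw [mul_div_cancel₀ _ hP]
    exact aeval_mem_pow hG
  · rw [aeval_prod]; exact pow_ne_zero _ (Finset.prod_ne_zero_iff.mpr hcS)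
  · rw [aeval_prod, mul_div_cancel₀ _ hP]
  · rw [aeval_prod]; exact hc c hcS

/-- Sections with zero images are multiples of `θ`. -/
theorem hs_exact (h : HSec X u Lc xc) (hX : ∀ i, X i ≠ 0) (m : ℤ) (S : Finset ι)
    (hS : S.Nonempty) (a : L') (ha : a ∈ Sec (VV k' X) X m S)
    (h0 : ∀ c, (∀ i ∈ S, xc c i ≠ 0) → Spec k' X (xc c) a 0) :
    ∃ a' ∈ Sec (VV k' X) X (m - 1) S, a = (∑ i, u i • X i) * a' := by
  obtain ⟨N, e, he, h1⟩ := ha
  obtain ⟨G, hG, hGa⟩ := Pool.Agent.Y785.GS.exists_hom X h1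
  have hP : ∏ i ∈ S, X i ≠ 0 := Finset.prod_ne_zero_iff.mpr (fun i _ => hX i)
  obtain ⟨N', H, hH, hN', hGH⟩ := h.2.2.2.2 e S G hS hG (by
    intro c hcS
    have h2 : Spec k' X (xc c) a (aeval (xc c) G / (∏ i ∈ S, xc c i) ^ N) := by
      have hPc : (∏ i ∈ S, xc c i) ^ N ≠ 0 := pow_ne_zero _ (Finset.prod_ne_zero_iff.mpr hcS)
      refine ⟨G, (∏ i ∈ S, (MvPolynomial.X i : MvPolynomial ι k')) ^ N, ?_, ?_, ?_⟩
      · rw [aeval_prod]; exact hPc
      · rw [aeval_prod, hGa]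
      · rw [aeval_prod, mul_div_cancel₀ _ hPc]
    have h3 := spec_uniq (h.1 c) h2 (h0 c hcS)
    have hPc : (∏ i ∈ S, xc c i) ^ N ≠ 0 := pow_ne_zero _ (Finset.prod_ne_zero_iff.mpr hcS)
    exact (div_eq_zero_iff.mp h3).resolve_right hPc)
  have hPN : (∏ i ∈ S, X i) ^ (N + N') ≠ 0 := pow_ne_zero _ hP
  have hc1 : 1 ≤ N' * S.card := Nat.mul_pos hN' hS.card_pos
  refine ⟨aeval X H / (∏ i ∈ S, X i) ^ (N + N'), ⟨N + N', e + N' * S.card - 1, ?_, ?_⟩, ?_⟩
  · rw [Nat.cast_sub (by omega)]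
    push_cast
    rw [he]
    ring
  · rw [mul_div_cancel₀ _ hPN]
    exact aeval_mem_pow hH
  · rw [← mul_div_assoc, ← hGH, eq_div_iff hPN, hGa]
    ring

end hsec

end Pool.Agent.Y234.GS.Hyp
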