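import Pool.Agent.Y234.GS.Hyp1

/-!
# Project GS: the induction step with hyperplane sections
-/

set_option autoImplicit false

namespace Pool.Agent.Y234.GS.Hyp

open MvPolynomial Pool.Agent.Y234.GS

section corr

variable {k' L' ι : Type} [Field k'] [Field L'] [Algebra k' L'] [Fintype ι] [LinearOrder ι]
  {X : ι → L'} {u : ι → k'} {C : Type} {Lc : C → Type} [∀ c, Field (Lc c)]
  [∀ c, Algebra k' (Lc c)] {xc : ∀ c, ι → Lc c}

theorem memV (i : ι) : X i ∈ VV k' X := Submodule.subset_span ⟨i, rfl⟩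

/-- A cocycle with zero images is `θ` times a coboundary. -/
theorem corr (h : HSec X u Lc xc) (hX : ∀ i, X i ≠ 0) {m : ℤ} {j : ℕ} (hj : 2 ≤ j)
    (c1 : Finset ι → L') (hc : Cocyc (VV k' X) X m j c1)
    (hz : ∀ S : Finset ι, S.card = j → ∀ c, (∀ i ∈ S, xc c i ≠ 0) →
      Spec k' X (xc c) (c1 S) 0)
    (hV : Van (VV k' X) X (m - 1) j) :
    ∃ b : Finset ι → L', Coch (VV k' X) X (m - 1) (j - 1) b ∧
      ∀ S : Finset ι, S.card = j → c1 S = (∑ i, u i • X i) * dd b S := by
  have hθ : ∑ i, u i • X i ≠ 0 := h.2.2.1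
  have hne : ∀ S : Finset ι, S.card = j → S.Nonempty := fun S hS => by
    rw [← Finset.card_pos, hS]; omega
  have hex : ∀ S : Finset ι, ∃ y : L', S.card = j → y ∈ Sec (VV k' X) X (m - 1) S ∧
      c1 S = (∑ i, u i • X i) * y := by
    intro S
    by_cases hS : S.card = j
    · obtain ⟨a', ha', he⟩ := hs_exact h hX m S (hne S hS) (c1 S) (hc.1 S hS) (hz S hS)
      exact ⟨a', fun _ => ⟨ha', he⟩⟩
    · exact ⟨0, fun h => absurd h hS⟩
  choose y hy using hex
  have hyc : Cocyc (VV k' X) X (m - 1) j y := by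
    refine ⟨fun S hS => (hy S hS).1, fun S hS => ?_⟩
    have h1 : dd c1 S = (∑ i, u i • X i) * dd y S := by
      rw [← Pool.Agent.Y968.GS.dd_mul]
      refine Pool.Agent.Y340.GS.dd_congr (fun i hi => ?_)
      refine (hy _ ?_).2
      rw [Finset.card_erase_of_mem hi, hS]; rfl
    rw [hc.2 S hS] at h1
    exact (mul_eq_zero.mp h1.symm).resolve_left hθ
  obtain ⟨b, hb, hb2⟩ := hV y hyc
  exact ⟨b, hb, fun S hS => by rw [(hy S hS).2, hb2 S hS]⟩

/-- Van over the base extension. -/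
theorem van_base {k L : Type} [Field k] [Field L] [Algebra k L] [Algebra k k'] [Algebra k L']
    [Algebra L L'] [IsScalarTower k k' L'] [IsScalarTower k L L'] (hB : S_BCH)
    (hD : Disj k k' L L') {x : ι → L} (hx : ∀ i, x i ≠ 0) {m : ℤ} {q : ℕ} (hq : 2 ≤ q)
    (hV : Van (VV k x) x m q) :
    Van (VV k' (fun i => algebraMap L L' (x i))) (fun i => algebraMap L L' (x i)) m q := by
  intro c1 hc1
  obtain ⟨h1, -⟩ := hB k k' L L' ι x m q hD hx (by omega)
  obtain ⟨n, r, c, -, hc, hcs⟩ := h1 c1 hc1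
  have hb : ∀ i, ∃ b : Finset ι → L, Coch (VV k x) x m (q - 1) b ∧
      ∀ S : Finset ι, S.card = q → c i S = dd b S := fun i => hV (c i) (hc i)
  choose b hb hb2 using hb
  refine ⟨∑ i, r i • (fun S => algebraMap L L' (b i S)), fun S hS => ?_, fun S hS => ?_⟩
  · have hne : S.Nonempty := by rw [← Finset.card_pos, hS]; omega
    rw [Finset.sum_apply]
    refine Pool.Agent.Y340.GS.sec_sum _ _ memV hne _ _ (fun i _ => ?_)
    rw [Pi.smul_apply]
    refine Pool.Agent.Y968.GS.sec_smul _ _ m S _ _ ?_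
    obtain ⟨N, e, he, h⟩ := hb i S hS
    refine ⟨N, e, he, ?_⟩
    have h2 := Pool.Agent.Y968.GS.map_pow_mem (k := k) (k1 := k') (L1 := L') x e _ h
    rwa [map_mul, map_pow, map_prod] at h2
  · rw [hcs S hS]
    have h3 : dd (∑ i, r i • (fun S => algebraMap L L' (b i S))) S =
        ∑ i, r i • algebraMap L L' (dd (b i) S) := by
      have h4 : (∑ i, r i • (fun S => algebraMap L L' (b i S))) =
          fun S => ∑ i, r i • algebraMap L L' (b i S) := by
        funext S
        rw [Finset.sum_apply]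
        rfl
      rw [h4, Pool.Agent.Y978.GS.dd_sum]
      refine Finset.sum_congr rfl (fun i _ => ?_)
      rw [Pool.Agent.Y968.GS.dd_smul, Pool.Agent.Y968.GS.dd_alg]
    rw [h3]
    exact Finset.sum_congr rfl (fun i _ => by rw [hb2 i S hS])

end corr

section comp

variable {k' M ι : Type} [Field k'] [Field M] [Algebra k' M] [Fintype ι] [LinearOrder ι]

theorem vv_sub (Y : ι → M) : VV k' (fun i : {i // Y i ≠ 0} => Y i) = VV k' Y := by
  apply le_antisymm
  · refine Submodule.span_mono ?_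
    rintro _ ⟨i, rfl⟩
    exact ⟨i.1, rfl⟩
  · refine Submodule.span_le.mpr ?_
    rintro _ ⟨i, rfl⟩
    by_cases h : Y i = 0
    · rw [h]; exact Submodule.zero_mem _
    · exact Submodule.subset_span ⟨⟨i, h⟩, rfl⟩

/-- The embedding of the index set of a component. -/
abbrev emb (Y : ι → M) : {i // Y i ≠ 0} ↪o ι := OrderEmbedding.subtype (fun i => Y i ≠ 0)

theorem sec_emb (Y : ι → M) (m : ℤ) (S : Finset {i // Y i ≠ 0}) :
    Sec (VV k' (fun i : {i // Y i ≠ 0} => Y i)) (fun i : {i // Y i ≠ 0} => Y i) m S =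
      Sec (VV k' Y) Y m (S.map (emb Y).toEmbedding) := by
  rw [Pool.Agent.Y968.GS.sec_map (emb Y) (VV k' Y) Y m S, vv_sub]
  rfl

theorem mem_emb (Y : ι → M) (S : Finset {i // Y i ≠ 0}) :
    ∀ i ∈ S.map (emb Y).toEmbedding, Y i ≠ 0 := by
  intro i hi
  obtain ⟨a, -, rfl⟩ := Finset.mem_map.mp hi
  exact a.2

open Classical in
theorem emb_sub (Y : ι → M) (S : Finset ι) (hS : ∀ i ∈ S, Y i ≠ 0) :
    (S.subtype (fun i => Y i ≠ 0)).map (emb Y).toEmbedding = S := by
  ext i
  simp only [Finset.mem_map, Finset.mem_subtype]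
  constructor
  · rintro ⟨a, ha, rfl⟩
    exact ha
  · intro hi
    exact ⟨⟨i, hS i hi⟩, hi, rfl⟩

open Classical in
theorem sub_emb (Y : ι → M) (S : Finset {i // Y i ≠ 0}) :
    (S.map (emb Y).toEmbedding).subtype (fun i => Y i ≠ 0) = S := by
  ext i
  simp only [Finset.mem_map, Finset.mem_subtype]
  constructor
  · rintro ⟨a, ha, hai⟩
    have : a = i := Subtype.ext hai
    rwa [← this]
  · intro hi
    exact ⟨i, hi, rfl⟩

end comp

end Pool.Agent.Y234.GS.Hyp
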