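import Pool.Agent.Y234.GS.Hyp2

/-!
# Project GS: the induction step with hyperplane sections, conclusion
-/

set_option autoImplicit false

namespace Pool.Agent.Y234.GS.Hyp

open MvPolynomial Pool.Agent.Y234.GS

section cv

variable {k' L' ι : Type} [Field k'] [Field L'] [Algebra k' L'] [Fintype ι] [LinearOrder ι]
  {X : ι → L'} {u : ι → k'} {C : Type} {Lc : C → Type} [∀ c, Field (Lc c)]
  [∀ c, Algebra k' (Lc c)] {xc : ∀ c, ι → Lc c}

theorem theta_mem : (∑ i, u i • X i) ∈ (VV k' X) ^ 1 := by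
  rw [pow_one]
  exact Submodule.sum_mem _ (fun i _ => Submodule.smul_mem _ _ (memV i))

theorem theta_spec (h : HSec X u Lc xc) (c : C) : Spec k' X (xc c) (∑ i, u i • X i) 0 := by
  have h1 : Spec k' X (xc c) (aeval X (∑ i, u i • (MvPolynomial.X i : MvPolynomial ι k')))
      (aeval (xc c) (∑ i, u i • (MvPolynomial.X i : MvPolynomial ι k'))) := spec_aeval _
  simp only [map_sum, map_smul, aeval_X] at h1
  rwa [h.2.1 c] at h1

theorem theta_mul {m : ℤ} {S : Finset ι} {a : L'} (ha : a ∈ Sec (VV k' X) X (m - 1) S) :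
    (∑ i, u i • X i) * a ∈ Sec (VV k' X) X m S := by
  have h := Pool.Agent.Y968.GS.sec_mul (VV k' X) X (m - 1) S 1 _ _ (theta_mem (u := u)) ha
  have e : m - 1 + ((1 : ℕ) : ℤ) = m := by push_cast; ring
  rwa [e] at h

theorem comp_van (h : HSec X u Lc xc) (hX : ∀ i, X i ≠ 0) {q : ℕ} {m : ℤ} (hq : 2 ≤ q)
    (hV1 : Van (VV k' X) X m q) (hV2 : Van (VV k' X) X (m - 1) (q + 1)) (c : C) :
    Van (VV k' (fun i : {i // xc c i ≠ 0} => xc c i)) (fun i : {i // xc c i ≠ 0} => xc c i) m q := by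
  classical
  intro z hz
  have hne : ∀ S : Finset ι, S.card = q → S.Nonempty := fun S hS => by
    rw [← Finset.card_pos, hS]; omega
  let bS : Finset ι → ∀ c', Lc c' := fun S => Pi.single c (z (S.subtype (fun i => xc c i ≠ 0)))
  have hbc : ∀ S, bS S c = z (S.subtype (fun i => xc c i ≠ 0)) := fun S => Pi.single_eq_same _ _
  have hbc' : ∀ S c', c' ≠ c → bS S c' = 0 := fun S c' hc' => Pi.single_eq_of_ne hc' _
  have hex : ∀ S : Finset ι, ∃ a : L', S.card = q → a ∈ Sec (VV k' X) X m S ∧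
      ∀ c', (∀ i ∈ S, xc c' i ≠ 0) → Spec k' X (xc c') a (bS S c') := by
    intro S
    by_cases hS : S.card = q
    · obtain ⟨a, ha, ha2⟩ := hs_lift h hX m S (hne S hS) (bS S) (by
        intro c' hc'
        by_cases hcc : c' = c
        · subst hcc
          rw [hbc]
          have e1 := emb_sub (xc c') S hc'
          have h1 := hz.1 (S.subtype (fun i => xc c' i ≠ 0)) (by
            rw [← Finset.card_map (emb (xc c')).toEmbedding, e1, hS])
          rw [sec_emb, e1] at h1
          exact h1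
        · rw [hbc' S c' hcc]
          exact Pool.Agent.Y340.GS.sec_zero _ _ (hne S hS))
      exact ⟨a, fun _ => ⟨ha, ha2⟩⟩
    · exact ⟨0, fun h => absurd h hS⟩
  choose a ha using hex
  have hcard : ∀ (T : Finset ι) (i : ι), T.card = q + 1 → i ∈ T → (T.erase i).card = q := by
    intro T i hT hi
    rw [Finset.card_erase_of_mem hi, hT]; rfl
  have hdd : ∀ T : Finset ι, T.card = q + 1 → ∀ c', (∀ i ∈ T, xc c' i ≠ 0) →
      Spec k' X (xc c') (dd a T) 0 := by
    intro T hT c' hc'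
    have h1 : Spec k' X (xc c') (dd a T) (dd (fun S => bS S c') T) :=
      spec_dd (fun i hi => (ha _ (hcard T i hT hi)).2 c'
        (fun l hl => hc' l (Finset.mem_of_mem_erase hl)))
    have h2 : dd (fun S => bS S c') T = 0 := by
      by_cases hcc : c' = c
      · subst hcc
        have e1 := emb_sub (xc c') T hc'
        rw [← e1, ← Pool.Agent.Y968.GS.dd_map]
        have e2 : (fun S : Finset {i // xc c' i ≠ 0} => bS (S.map (emb (xc c')).toEmbedding) c') =
            z := by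
          funext S
          rw [hbc, sub_emb]
        rw [e2]
        exact hz.2 _ (by rw [← Finset.card_map (emb (xc c')).toEmbedding, e1, hT])
      · exact Pool.Agent.Y340.GS.dd_eq_zero (fun i _ => hbc' _ c' hcc)
    rwa [h2] at h1
  obtain ⟨b, hb, hb2⟩ := corr h hX (j := q + 1) (by omega) (dd a)
    ⟨fun T hT => Pool.Agent.Y340.GS.sec_dd _ _ memV
      (by rw [← Finset.card_pos, hT]; omega) a (fun i hi => (ha _ (hcard T i hT hi)).1),
      fun T _ => Pool.Agent.Y978.GS.dd_dd a T⟩ hdd hV2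
  have ha'c : Cocyc (VV k' X) X m q (fun S => a S - (∑ i, u i • X i) * b S) := by
    refine ⟨fun S hS => Pool.Agent.Y340.GS.sec_sub _ _ memV (ha S hS).1
      (theta_mul (hb S hS)), fun T hT => ?_⟩
    rw [Pool.Agent.Y340.GS.dd_sub, Pool.Agent.Y968.GS.dd_mul, hb2 T hT, sub_self]
  obtain ⟨b', hb', hb2'⟩ := hV1 _ ha'c
  have hβ : ∀ R : Finset {i // xc c i ≠ 0}, ∃ β : Lc c, R.card = q - 1 →
      β ∈ Sec (VV k' (fun i : {i // xc c i ≠ 0} => xc c i))
        (fun i : {i // xc c i ≠ 0} => xc c i) m R ∧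
      Spec k' X (xc c) (b' (R.map (emb (xc c)).toEmbedding)) β := by
    intro R
    by_cases hR : R.card = q - 1
    · obtain ⟨β, h1, h2⟩ := sec_spec hX (hb' (R.map (emb (xc c)).toEmbedding)
        (by rw [Finset.card_map, hR])) (mem_emb (xc c) R)
      exact ⟨β, fun _ => ⟨by rw [sec_emb]; exact h1, h2⟩⟩
    · exact ⟨0, fun h => absurd h hR⟩
  choose β hβ using hβ
  refine ⟨β, fun R hR => (hβ R hR).1, fun S hS => ?_⟩
  have hSm : (S.map (emb (xc c)).toEmbedding).card = q := by rw [Finset.card_map, hS]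
  have h1 : Spec k' X (xc c) (a (S.map (emb (xc c)).toEmbedding)) (z S) := by
    have h2 := (ha _ hSm).2 c (mem_emb (xc c) S)
    rwa [hbc, sub_emb] at h2
  have h3 : Spec k' X (xc c) ((∑ i, u i • X i) * b (S.map (emb (xc c)).toEmbedding)) 0 := by
    obtain ⟨β2, -, h4⟩ := sec_spec hX (hb _ hSm) (mem_emb (xc c) S)
    have h5 := spec_mul (theta_spec h c) h4
    rwa [zero_mul] at h5
  have h6 : Spec k' X (xc c) (dd b' (S.map (emb (xc c)).toEmbedding)) (z S) := by
    rw [← hb2' _ hSm]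
    have h7 := spec_sub h1 h3
    rwa [sub_zero] at h7
  have h8 : Spec k' X (xc c) (dd b' (S.map (emb (xc c)).toEmbedding)) (dd β S) := by
    rw [← Pool.Agent.Y968.GS.dd_map]
    refine spec_dd (fun i hi => (hβ _ ?_).2)
    exact (@Finset.card_erase_of_mem _ _ _ _ hi).trans (by rw [hS])
  exact spec_uniq (h.1 c) h6 h8

end cv

section wimage

variable {k k' L L' M ι : Type} [Field k] [Field k'] [Field L] [Field L'] [Field M]
  [Algebra k k'] [Algebra k L] [Algebra k L'] [Algebra k' L'] [Algebra L L'] [Algebra k' M]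
  [IsScalarTower k k' L'] [IsScalarTower k L L'] [Fintype ι]

theorem prod_sub {R : Type} [CommMonoid R] (Y : ι → M) [Fintype {i // Y i ≠ 0}] (f : ι → R)
    (hf : ∀ i, Y i = 0 → f i = 1) : ∏ i, f i = ∏ i : {i // Y i ≠ 0}, f i := by
  classical
  rw [← Finset.prod_subtype (Finset.univ.filter (fun i => Y i ≠ 0)) (fun i => by simp) f]
  symm
  refine Finset.prod_subset (Finset.filter_subset _ _) (fun i _ hi => hf i ?_)
  by_contra h
  exact hi (Finset.mem_filter.mpr ⟨Finset.mem_univ i, h⟩)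

theorem sum_sub {R : Type} [AddCommMonoid R] (Y : ι → M) [Fintype {i // Y i ≠ 0}] (f : ι → R)
    (hf : ∀ i, Y i = 0 → f i = 0) : ∑ i, f i = ∑ i : {i // Y i ≠ 0}, f i := by
  classical
  rw [← Finset.sum_subtype (Finset.univ.filter (fun i => Y i ≠ 0)) (fun i => by simp) f]
  symm
  refine Finset.sum_subset (Finset.filter_subset _ _) (fun i _ hi => hf i ?_)
  by_contra h
  exact hi (Finset.mem_filter.mpr ⟨Finset.mem_univ i, h⟩)

theorem mon_sub (Y : ι → M) [Fintype {i // Y i ≠ 0}] (w : ι → ℕ) (b : ι → ℕ) (e : ℕ) (s : ℤ)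
    (h1 : deg b = e) (h2 : (wt w b : ℤ) ≤ s) :
    mon Y b ∈ WV k' (fun i : {i // Y i ≠ 0} => Y i) (fun i => w i) e s := by
  classical
  by_cases h : ∃ i, Y i = 0 ∧ b i ≠ 0
  · obtain ⟨i, hi, hbi⟩ := h
    have h0 : mon Y b = 0 := by
      unfold mon
      exact Finset.prod_eq_zero (Finset.mem_univ i) (by rw [hi, zero_pow hbi])
    rw [h0]; exact Submodule.zero_mem _
  · push Not at h
    refine Submodule.subset_span ⟨fun i => b i, ?_, ?_, ?_⟩
    · rw [← h1]
      exact (sum_sub Y b h).symm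
    · refine le_trans (le_of_eq ?_) h2
      congr 1
      exact (sum_sub Y (fun i => w i * b i) (fun i hi => by simp [h i hi])).symm
    · exact prod_sub Y (fun i => Y i ^ b i) (fun i hi => by simp [h i hi])

theorem wv_image (x : ι → L) (w : ι → ℕ) (Y : ι → M) [Fintype {i // Y i ≠ 0}] (e : ℕ) (s : ℤ)
    {v : L} (hv : v ∈ WV k x w e s) :
    ∃ G : MvPolynomial ι k', G.IsHomogeneous e ∧
      aeval (fun i => algebraMap L L' (x i)) G = algebraMap L L' v ∧
      aeval Y G ∈ WV k' (fun i : {i // Y i ≠ 0} => Y i) (fun i => w i) e s := by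
  classical
  unfold WV at hv
  induction hv using Submodule.span_induction with
  | mem v hv =>
    obtain ⟨b, h1, h2, rfl⟩ := hv
    have e1 : ∀ (R : Type) [Field R] [Algebra k' R] (f : ι → R),
        aeval f (monomial (Finsupp.equivFunOnFinite.symm b) (1 : k')) = mon f b := by
      intro R _ _ f
      rw [aeval_monomial, map_one, one_mul, Finsupp.prod_fintype _ _ (fun i => pow_zero _)]
      rfl
    refine ⟨monomial (Finsupp.equivFunOnFinite.symm b) 1, ?_, ?_, ?_⟩
    · apply isHomogeneous_monomial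
      rw [Finsupp.degree_eq_sum, ← h1]
      rfl
    · rw [e1]
      unfold mon
      rw [map_prod]
      exact Finset.prod_congr rfl (fun i _ => by rw [map_pow])
    · rw [e1]
      exact mon_sub Y w b e s h1 h2
  | zero => exact ⟨0, isHomogeneous_zero _ _ _, by simp, by rw [map_zero]; exact Submodule.zero_mem _⟩
  | add a b _ _ ha hb =>
    obtain ⟨G, h1, h2, h3⟩ := ha
    obtain ⟨G', h1', h2', h3'⟩ := hb
    exact ⟨G + G', h1.add h1', by rw [map_add, h2, h2', map_add],
      by rw [map_add]; exact Submodule.add_mem _ h3 h3'⟩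
  | smul r a _ ha =>
    obtain ⟨G, h1, h2, h3⟩ := ha
    refine ⟨algebraMap k k' r • G, ?_, ?_, ?_⟩
    · have := (isHomogeneous_C ι (algebraMap k k' r)).mul h1
      rwa [zero_add, ← smul_eq_C_mul] at this
    · rw [map_smul, h2, Algebra.smul_def r a, map_mul, Algebra.smul_def,
        ← IsScalarTower.algebraMap_apply k k' L', ← IsScalarTower.algebraMap_apply k L L']
    · rw [map_smul]; exact Submodule.smul_mem _ _ h3

theorem wsec_image [LinearOrder ι] (x : ι → L) (w : ι → ℕ) (Y : ι → M)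
    [Fintype {i // Y i ≠ 0}] {m s : ℤ} {S : Finset {i // Y i ≠ 0}} {a : L}
    (ha : a ∈ WSec k x w m s (S.map (emb Y).toEmbedding)) :
    ∃ b ∈ WSec k' (fun i : {i // Y i ≠ 0} => Y i) (fun i => w i) m s S,
      Spec k' (fun i => algebraMap L L' (x i)) Y (algebraMap L L' a) b := by
  obtain ⟨N, e, he, h⟩ := ha
  obtain ⟨G, hG, hGa, hGY⟩ := wv_image (k' := k') (L' := L') x w Y e _ h
  have hP : (∏ i ∈ S.map (emb Y).toEmbedding, Y i) ^ N ≠ 0 :=
    pow_ne_zero _ (Finset.prod_ne_zero_iff.mpr (mem_emb Y S))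
  refine ⟨aeval Y G / (∏ i ∈ S.map (emb Y).toEmbedding, Y i) ^ N, ⟨N, e, ?_, ?_⟩, G,
    (∏ i ∈ S.map (emb Y).toEmbedding, (MvPolynomial.X i : MvPolynomial ι k')) ^ N, ?_, ?_, ?_⟩
  · rw [he, Finset.card_map]
  · have e1 : (∏ i ∈ S, (fun i : {i // Y i ≠ 0} => Y i) i) ^ N =
        (∏ i ∈ S.map (emb Y).toEmbedding, Y i) ^ N := by
      rw [Finset.prod_map]; rfl
    rw [e1, mul_div_cancel₀ _ hP]
    have e2 : (∑ i ∈ S.map (emb Y).toEmbedding, (w i : ℤ)) = ∑ i ∈ S, (w i : ℤ) := by
      rw [Finset.sum_map]; rfl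
    rw [e2] at hGY
    exact hGY
  · rw [aeval_prod]; exact hP
  · rw [aeval_prod, hGa, map_mul, map_pow, map_prod]
  · rw [aeval_prod, mul_div_cancel₀ _ hP]

end wimage

end Pool.Agent.Y234.GS.Hyp
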