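import Pool.Agent.Y234.GS.Defs

/-!
# Project GS: statements, part A (Cech complexes, Groebner filtration, combinatorics)
-/

set_option autoImplicit false

namespace Pool.Agent.Y234.GS

open MvPolynomial

/-- REF: cocycles extend from a covering subfamily to the whole family, uniquely up to
coboundaries. -/
def S_REF : Prop :=
  ∀ (O L ι κ : Type) [CommRing O] [Field L] [Algebra O L] [LinearOrder ι] [Fintype ι]
    [LinearOrder κ] [Fintype κ] (e : ι ↪o κ) (W : Submodule O L) (f : κ → L) (m : ℤ) (j : ℕ),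
    (∀ k, f k ∈ W) → (∀ k, f k ≠ 0) → Cover W (fun i => f (e i)) → 2 ≤ j →
    (∀ c : Finset ι → L, Cocyc W (fun i => f (e i)) m j c →
      ∃ h : Finset κ → L, Cocyc W f m j h ∧
        ∀ S : Finset ι, S.card = j → h (S.map e.toEmbedding) = c S) ∧
    (∀ h : Finset κ → L, Cocyc W f m j h →
      Cobd W (fun i => f (e i)) m j (fun S => h (S.map e.toEmbedding)) → Cobd W f m j h)

/-- TOP: comparison of the cocycles of level `D` on the family `x` with the top sections on the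
family `ψ`. -/
def S_TOP : Prop :=
  ∀ (O L ι : Type) [CommRing O] [Field L] [Algebra O L] [LinearOrder ι] [Fintype ι] (D : ℕ)
    (W : Submodule O L) (x : ι → L) (ψ : Fin D → L) (m : ℤ),
    2 ≤ D → (∀ i, x i ∈ W) → (∀ i, x i ≠ 0) → (∀ k, ψ k ∈ W) → (∀ k, ψ k ≠ 0) →
    Cover W x → Cover W ψ →
    (∀ v ∈ Sec W ψ m Finset.univ, ∃ c, Cocyc W x m D c ∧ Rep W x ψ m c v) ∧
    (∀ c, Cocyc W x m D c → ∃ v ∈ Sec W ψ m Finset.univ, Rep W x ψ m c v) ∧
    (∀ c v, Cocyc W x m D c → Rep W x ψ m c v → (Cobd W x m D c ↔ Bd W ψ m v))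

/-- REPC: closure properties of `Rep` and `Bd`. -/
def S_REPC : Prop :=
  ∀ (O L ι : Type) [CommRing O] [Field L] [Algebra O L] [LinearOrder ι] [Fintype ι] (D : ℕ)
    (W : Submodule O L) (x : ι → L) (ψ : Fin D → L) (m : ℤ),
    2 ≤ D → (∀ i, x i ∈ W) → (∀ k, ψ k ∈ W) →
    (∀ c v c' v', Rep W x ψ m c v → Rep W x ψ m c' v' → Rep W x ψ m (c + c') (v + v')) ∧
    (∀ (n : ℕ) (z : L) c v, z ∈ W ^ n → Rep W x ψ m c v →
      Rep W x ψ (m + n) (fun S => z * c S) (z * v)) ∧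
    (∀ (p e : ℕ) c v, p.Prime → CharP L p → Rep W x ψ m c v →
      Rep W x ψ ((p ^ e : ℕ) * m) (fun S => c S ^ p ^ e) (v ^ p ^ e)) ∧
    (∀ (a : O) c v, Rep W x ψ m c v → Rep W x ψ m (fun S => a • c S) (a • v)) ∧
    (∀ v v', Bd W ψ m v → Bd W ψ m v' → Bd W ψ m (v + v')) ∧
    (∀ (n : ℕ) (z v : L), z ∈ W ^ n → Bd W ψ m v → Bd W ψ (m + n) (z * v)) ∧
    (∀ (p e : ℕ) v, p.Prime → CharP L p → Bd W ψ m v → Bd W ψ ((p ^ e : ℕ) * m) (v ^ p ^ e)) ∧
    (∀ (a : O) v, Bd W ψ m v → Bd W ψ m (a • v))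

/-- RCH: `Rep` over a ring `O` gives `Rep` over a larger field of coefficients, after a rescaling of
the family by units. -/
def S_RCH : Prop :=
  ∀ (O k1 L ι : Type) [CommRing O] [Field k1] [Field L] [Algebra O L] [Algebra k1 L]
    [Algebra O k1] [IsScalarTower O k1 L] [LinearOrder ι] [Fintype ι] (D : ℕ)
    (W : Submodule O L) (V : Submodule k1 L) (y x : ι → L) (u : ι → k1) (ψ : Fin D → L) (m : ℤ)
    (c : Finset ι → L) (v : L),
    1 ≤ D → (∀ a ∈ W, a ∈ V) → (∀ i, x i ∈ V) → (∀ i, u i ≠ 0) → (∀ i, y i = u i • x i) →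
    Rep W y ψ m c v → Rep V x ψ m c v

/-- POL: vanishing below the top level for a polynomial ring. -/
def S_POL : Prop :=
  ∀ (K L : Type) [Field K] [Field L] [Algebra K L] (D : ℕ) (θ : Fin D → L),
    AlgebraicIndependent K θ → ∀ (m : ℤ) (j : ℕ), 2 ≤ j → j < D → Van (VV K θ) θ m j

/-- POLT: the top level for a polynomial ring. -/
def S_POLT : Prop :=
  ∀ (K L : Type) [Field K] [Field L] [Algebra K L] (D : ℕ) (θ : Fin D → L),
    AlgebraicIndependent K θ → 2 ≤ D →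
    LinearIndependent K (fun b : Fin D → ℤ => monz θ b) ∧
    (∀ (m : ℤ) (v : L), v ∈ Sec (VV K θ) θ m Finset.univ ↔
      v ∈ Submodule.span K {a : L | ∃ b : Fin D → ℤ, degz b = m ∧ a = monz θ b}) ∧
    (∀ (m : ℤ) (v : L), Bd (VV K θ) θ m v ↔
      v ∈ Submodule.span K
        {a : L | ∃ b : Fin D → ℤ, degz b = m ∧ (∃ k, 0 ≤ b k) ∧ a = monz θ b})

/-- FIN: the filtered complexes are exact in low weights. -/
def S_FIN : Prop :=
  ∀ (K L ι : Type) [Field K] [Field L] [Algebra K L] [LinearOrder ι] [Fintype ι] (x : ι → L)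
    (w : ι → ℕ), Model K x → ∀ (m : ℤ) (j : ℕ), 2 ≤ j → ∃ s0 : ℤ, ∀ s < s0,
      ∀ c : Finset ι → L, WCocyc K x w m s j c → WCobd K x w m s j c

/-- SYM: symbols of sections. -/
def S_SYM : Prop :=
  ∀ (K L ι : Type) [Field K] [Field L] [Algebra K L] [LinearOrder ι] [Fintype ι] (x : ι → L)
    (w : ι → ℕ) (Δ : Finset (Finset ι)), (∀ i, x i ≠ 0) → Grob K x w Δ →
    (∀ (m s : ℤ) (S : Finset ι) (a : L), a ∈ WSec K x w m s S →
      ∃ κ : (ι → ℤ) →₀ K,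
        (∀ b ∈ κ.support, degz b = m ∧ wtz w b = s ∧ (∀ i, b i < 0 → i ∈ S) ∧
          S ∪ Finset.univ.filter (fun i => b i ≠ 0) ∈ Δ) ∧
        a - κ.sum (fun b r => r • monz x b) ∈ WSec K x w m (s - 1) S) ∧
    (∀ (m s : ℤ) (S : Finset ι) (κ : (ι → ℤ) →₀ K),
      (∀ b ∈ κ.support, degz b = m ∧ wtz w b = s ∧ (∀ i, b i < 0 → i ∈ S) ∧
          S ∪ Finset.univ.filter (fun i => b i ≠ 0) ∈ Δ) →
      κ.sum (fun b r => r • monz x b) ∈ WSec K x w m (s - 1) S → κ = 0) ∧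
    (∀ (S : Finset ι) (b : ι → ℤ), (∀ i, b i < 0 → i ∈ S) →
      monz x b ∈ WSec K x w (degz b) (wtz w b) S) ∧
    (∀ (S : Finset ι) (b : ι → ℤ), (∀ i, b i < 0 → i ∈ S) →
      S ∪ Finset.univ.filter (fun i => b i ≠ 0) ∉ Δ →
      monz x b ∈ WSec K x w (degz b) (wtz w b - 1) S) ∧
    (∀ (S : Finset ι) (b : ι → ℤ), (∀ i, b i < 0 → i ∈ S) → S ∉ Δ → S.Nonempty →
      ∀ M : ℕ, monz x b ∈ WSec K x w (degz b) (wtz w b - M) S)

/-- GRO1: lifting of twisted cochain cocycles of the complex. -/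
def S_GRO1 : Prop :=
  ∀ (K L ι : Type) [Field K] [Field L] [Algebra K L] [LinearOrder ι] [Fintype ι] (x : ι → L)
    (w : ι → ℕ) (Δ : Finset (Finset ι)), Model K x → Grob K x w Δ →
    ∀ (a : ι → ℕ) (j : ℕ) (γ : Finset ι → K), 1 ≤ j →
      (∀ S, γ S ≠ 0 → supp a ⊆ S ∧ S ∈ Δ) → (∀ T ∈ Δ, T.card = j + 1 → dd γ T = 0) →
      ∃ c : Finset ι → L, WCocyc K x w (-(deg a : ℤ)) (-(wt w a : ℤ)) j c ∧
        ∀ S ∈ Δ, S.card = j → c S - γ S • monz x (fun i => -(a i : ℤ)) ∈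
          WSec K x w (-(deg a : ℤ)) (-(wt w a : ℤ) - 1) S

/-- GRO2: a lift that is a coboundary comes from an exact twisted cochain. -/
def S_GRO2 : Prop :=
  ∀ (K L ι : Type) [Field K] [Field L] [Algebra K L] [LinearOrder ι] [Fintype ι] (x : ι → L)
    (w : ι → ℕ) (Δ : Finset (Finset ι)), Model K x → Grob K x w Δ →
    ∀ (a : ι → ℕ) (j : ℕ) (γ : Finset ι → K) (c : Finset ι → L), 2 ≤ j →
      (∀ S, γ S ≠ 0 → supp a ⊆ S ∧ S ∈ Δ) →
      WCocyc K x w (-(deg a : ℤ)) (-(wt w a : ℤ)) j c →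
      (∀ S ∈ Δ, S.card = j → c S - γ S • monz x (fun i => -(a i : ℤ)) ∈
          WSec K x w (-(deg a : ℤ)) (-(wt w a : ℤ) - 1) S) →
      Cobd (VV K x) x (-(deg a : ℤ)) j c →
      ∃ β : Finset ι → K, (∀ S, β S ≠ 0 → supp a ⊆ S ∧ S ∈ Δ) ∧
        ∀ S ∈ Δ, supp a ⊆ S → S.card = j → γ S = dd β S

/-- GRO3: exactness of all the twisted complexes gives vanishing. -/
def S_GRO3 : Prop :=
  ∀ (K L ι : Type) [Field K] [Field L] [Algebra K L] [LinearOrder ι] [Fintype ι] (x : ι → L)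
    (w : ι → ℕ) (Δ : Finset (Finset ι)), Model K x → Grob K x w Δ →
    ∀ (m : ℤ) (j : ℕ), 2 ≤ j →
      (∀ a : ι → ℕ, (deg a : ℤ) = -m → TwExact K Δ (supp a) j) → Van (VV K x) x m j

/-- CONN: the complex is connected. -/
def S_CONN : Prop :=
  ∀ (K L ι : Type) [Field K] [Field L] [Algebra K L] [LinearOrder ι] [Fintype ι] (x : ι → L)
    (w : ι → ℕ) (Δ : Finset (Finset ι)), Model K x → Grob K x w Δ →
    ∀ γ : ι → K, (∀ i j, {i, j} ∈ Δ → γ i = γ j) → ∀ i j, γ i = γ j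

/-- NUL: homogeneous Nullstellensatz for a family of subspaces. -/
def S_NUL : Prop :=
  ∀ (K L ι : Type) [Field K] [IsAlgClosed K] [Field L] [Algebra K L] [Fintype ι] (x : ι → L)
    (P : ℕ → Submodule K L),
    (∀ n, ∀ a ∈ P n, ∀ i, x i * a ∈ P (n + 1)) →
    (∀ y : ι → K, IsPt K x y → ∃ n g, NZ K x y n g ∧ g ∈ P n) →
    ∃ N0 : ℕ, ∀ N ≥ N0, (VV K x) ^ N ≤ P N

/-- BCH: base change of cocycles. -/
def S_BCH : Prop :=
  ∀ (k k1 L L1 ι : Type) [Field k] [Field k1] [Field L] [Field L1] [Algebra k k1] [Algebra k L]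
    [Algebra k L1] [Algebra k1 L1] [Algebra L L1] [IsScalarTower k k1 L1] [IsScalarTower k L L1]
    [LinearOrder ι] [Fintype ι] (x : ι → L) (m : ℤ) (j : ℕ),
    Disj k k1 L L1 → (∀ i, x i ≠ 0) → 1 ≤ j →
    (∀ c1 : Finset ι → L1,
      Cocyc (VV k1 (fun i => algebraMap L L1 (x i))) (fun i => algebraMap L L1 (x i)) m j c1 →
      ∃ (n : ℕ) (r : Fin n → k1) (c : Fin n → Finset ι → L), LinearIndependent k r ∧
        (∀ i, Cocyc (VV k x) x m j (c i)) ∧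
        ∀ S : Finset ι, S.card = j → c1 S = ∑ i, r i • algebraMap L L1 (c i S)) ∧
    (2 ≤ j → ∀ (n : ℕ) (r : Fin n → k1) (c : Fin n → Finset ι → L), LinearIndependent k r →
      (∀ i, Cocyc (VV k x) x m j (c i)) →
      Cobd (VV k1 (fun i => algebraMap L L1 (x i))) (fun i => algebraMap L L1 (x i)) m j
        (fun S => ∑ i, r i • algebraMap L L1 (c i S)) →
      ∀ i, Cobd (VV k x) x m j (c i))

/-- DEDE: the Dedekind domain argument. -/
def S_DEDE : Prop :=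
  ∀ (k Dv Q L1 ι : Type) [Field k] [IsAlgClosed k] [CommRing Dv] [IsDomain Dv]
    [IsDiscreteValuationRing Dv] [Field Q] [Field L1] [Algebra k Dv] [Algebra Dv Q]
    [IsFractionRing Dv Q] [Algebra Q L1] [Algebra Dv L1] [IsScalarTower Dv Q L1] [Algebra k L1]
    [IsScalarTower k Dv L1] [FiniteDimensional Q L1] [Algebra.IsSeparable Q L1] [Fintype ι]
    (t : Dv) (x : ι → L1) (w : ι → ℕ) (ψ : Fin 2 → Dv) (v : Fin 2 → ι → k) (n : ℕ)
    (d : Fin n → ℤ) (φ : L1 →ₗ[Dv] L1) (Φ : Fin n → (L1 →ₗ[Dv] L1)),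
    Irreducible t → Function.Injective w →
    (∀ i, IsIntegral Dv (algebraMap Dv L1 t ^ w i * x i)) →
    (∀ i, algebraMap Dv L1 (ψ i) = ∑ l, v i l • (algebraMap Dv L1 t ^ w l * x l)) →
    (∀ α β : k, t ∣ α • ψ 0 + β • ψ 1 → α = 0 ∧ β = 0) →
    (∀ z, φ z ∈ Set.range (algebraMap Q L1)) → (∀ s z, Φ s z ∈ Set.range (algebraMap Q L1)) →
    (∀ (r0 : ι) (M : ℕ) (y : ι → k), IsPt k x y →
      ∃ (q m : ℕ) (G : MvPolynomial ι k) (B : Fin n → MvPolynomial ι k),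
        1 ≤ q ∧ G.IsHomogeneous m ∧ eval y G ≠ 0 ∧
        (∀ s, B s = 0 ∨ ∃ e : ℕ, (B s).IsHomogeneous e ∧ (e : ℤ) + M + d s = q * m) ∧
        ∀ σ : L1,
          (∃ z : Dv, ∑ s, Φ s (aeval x (B s) * x r0 ^ M * σ ^ q) = algebraMap Dv L1 (t * z)) →
          ∃ z : Dv, φ (aeval x G * σ) = algebraMap Dv L1 (t * z)) →
    ∀ z : L1, IsIntegral Dv z → ∃ z' : Dv, φ z = algebraMap Dv L1 (t * z')

/-- The vertices of `Δ`. -/
abbrev Vert {n : ℕ} (Δ : Finset (Finset (Fin n))) : Type :=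
  {i : Fin n // ({i} : Finset (Fin n)) ∈ Δ}

/-- The faces of `Δ` as sets of vertices. -/
def subc {n : ℕ} (Δ : Finset (Finset (Fin n))) : Finset (Finset (Vert Δ)) :=
  Finset.univ.filter (fun S => S.map (Function.Embedding.subtype _) ∈ Δ)

/-- The matrix of the frozen statement. -/
noncomputable def bmat (K : Type) [Field K] {n : ℕ} (L : Finset (Finset (Fin n))) (j : ℕ) :
    Matrix {G // G ∈ L.filter (fun G => G.card = j)}
      {F // F ∈ L.filter (fun F => F.card = j + 1)} K :=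
  Matrix.of fun G F => if G.1 ⊆ F.1 then
    (-1 : K) ^ ((G.1.filter (fun u => ∀ w ∈ F.1 \ G.1, u < w)).card) else 0

/-- RANK: exactness over a field of characteristic `p` gives the rank identity over fields of
characteristic `p` or `0`. -/
def S_RANK : Prop :=
  ∀ (k K : Type) [Field k] [Field K] (p : ℕ) (n : ℕ) (Δ : Finset (Finset (Fin n)))
    (F : Finset (Vert Δ)) (j : ℕ),
    p.Prime → CharP k p → (CharP K p ∨ CharZero K) →
    (∀ F ∈ Δ, ∀ G : Finset (Fin n), G ⊆ F → G ∈ Δ) → F ∈ subc Δ →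
    LkExact k (subc Δ) F j →
    ((Δ.filter (fun G => G ∩ F.map (Function.Embedding.subtype _) = ∅ ∧
        G ∪ F.map (Function.Embedding.subtype _) ∈ Δ)).filter (fun G => G.card = j)).card =
      (bmat K (Δ.filter (fun G => G ∩ F.map (Function.Embedding.subtype _) = ∅ ∧
        G ∪ F.map (Function.Embedding.subtype _) ∈ Δ)) j).rank +
      (if j = 0 then 0 else (bmat K (Δ.filter (fun G =>
        G ∩ F.map (Function.Embedding.subtype _) = ∅ ∧
        G ∪ F.map (Function.Embedding.subtype _) ∈ Δ)) (j - 1)).rank)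

/-- TWL: twisted exactness is exactness of the link. -/
def S_TWL : Prop :=
  ∀ (K ι : Type) [Field K] [LinearOrder ι] [Fintype ι] (Δ : Finset (Finset ι)) (F : Finset ι)
    (j : ℕ), (∀ F ∈ Δ, ∀ G : Finset ι, G ⊆ F → G ∈ Δ) → F ∈ Δ →
    TwExact K Δ F (j + F.card) → LkExact K Δ F j

end Pool.Agent.Y234.GS
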