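import Pool.Agent.Y234.GS.StmB

/-!
# Project GS: statements, part C (top level theorem, Bertini, reductions)
-/

set_option autoImplicit false

namespace Pool.Agent.Y234.GS

open MvPolynomial

/-! ## The top level -/

/-- TFALL: trace frames exist at all points. -/
def S_TFALL : Prop :=
  ∀ (K L ι : Type) [Field K] [IsAlgClosed K] [Field L] [Algebra K L] [Fintype ι] (x : ι → L)
    (p D : ℕ) (y : ι → K), p.Prime → CharP K p → 1 ≤ D → Model K x → SmoothCharts K x →
    Algebra.trdeg K L = (D : Cardinal) → IsPt K x y → TF K p x D y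

/-- KLH: the implication of the Dedekind argument. -/
def S_KLH : Prop :=
  ∀ (k O k1 L L1 ι : Type) [Field k] [CommRing O] [IsDomain O] [IsDiscreteValuationRing O]
    [Field k1] [Field L] [Field L1] [Algebra k k1] [Algebra k L] [Algebra k L1] [Algebra k1 L1]
    [Algebra L L1] [Algebra O k1] [Algebra O L1] [IsFractionRing O k1] [IsScalarTower k k1 L1]
    [IsScalarTower k L L1] [IsScalarTower O k1 L1] [LinearOrder ι] [Fintype ι] (x : ι → L)
    (p D e m M n : ℕ) (t : O) (ψ : Fin D → L1) (d : Fin n → ℤ)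
    (ell : (Finset ι → L) →ₗ[k] k) (χ : Fin n → ((Finset ι → L) →ₗ[k] k))
    (ell1 : L1 →ₗ[k1] k1) (χ1 : Fin n → (L1 →ₗ[k1] k1))
    (φ : L1 →ₗ[k1] L1) (Φ : Fin n → (L1 →ₗ[k1] L1)) (g c : L) (β : Fin n → L),
    p.Prime → CharP k p → 2 ≤ D → Irreducible t → Disj k k1 L L1 → Model k x →
    Model k1 (fun i => algebraMap L L1 (x i)) →
    (∀ l, ψ l ∈ VV k1 (fun i => algebraMap L L1 (x i))) → AlgebraicIndependent k1 ψ →
    Cover (VV k1 (fun i => algebraMap L L1 (x i))) ψ →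
    (∀ v, Bd (VV k1 (fun i => algebraMap L L1 (x i))) ψ 0 v → ell1 v = 0) →
    (∀ a v, Cocyc (VV k x) x 0 D a →
      Rep (VV k1 (fun i => algebraMap L L1 (x i))) (fun i => algebraMap L L1 (x i)) ψ 0
        (fun S => algebraMap L L1 (a S)) v → ell1 v = algebraMap k k1 (ell a)) →
    (∀ s v, Bd (VV k1 (fun i => algebraMap L L1 (x i))) ψ (-(d s)) v → χ1 s v = 0) →
    (∀ s a v, Cocyc (VV k x) x (-(d s)) D a →
      Rep (VV k1 (fun i => algebraMap L L1 (x i))) (fun i => algebraMap L L1 (x i)) ψ (-(d s))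
        (fun S => algebraMap L L1 (a S)) v → χ1 s v = algebraMap k k1 (χ s a)) →
    (∀ l z, φ (ψ l * z) = ψ l * φ z) →
    (∀ (h : ℕ), ∀ f ∈ (VV k1 (fun i => algebraMap L L1 (x i))) ^ h, φ f = phiSum ψ ell1 0 h f) →
    (∀ s l z, Φ s (ψ l * z) = ψ l * Φ s z) →
    (∀ s (h : ℕ), ∀ f ∈ (VV k1 (fun i => algebraMap L L1 (x i))) ^ h,
      Φ s f = phiSum ψ (χ1 s) (-(d s)) h f) →
    g ∈ (VV k x) ^ m → c ∈ (VV k x) ^ M →
    (∀ s, β s = 0 ∨ ∃ e' : ℕ, (e' : ℤ) + M + d s = (p ^ e : ℕ) * m ∧ β s ∈ (VV k x) ^ e') →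
    (∀ ξ, Cocyc (VV k x) x (-(m : ℤ)) D ξ →
      (ell (fun S => g * ξ S)) ^ p ^ e = ∑ s, χ s (fun S => β s * (c * ξ S ^ p ^ e))) →
    ∀ σ : L1, ∑ s, Φ s (algebraMap L L1 (β s) * algebraMap L L1 c * σ ^ p ^ e) ∈ GDt t ψ →
      φ (algebraMap L L1 g * σ) ∈ GDt t ψ

/-- KL: integral cocycles of top level are coboundaries. -/
def S_KL : Prop :=
  ∀ (k L ι : Type) [Field k] [IsAlgClosed k] [Field L] [Algebra k L] [LinearOrder ι] [Fintype ι]
    (p D : ℕ) (x : ι → L) (w : ι → ℕ), p.Prime → CharP k p → 2 ≤ D → Model k x →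
    SmoothCharts k x → Algebra.trdeg k L = (D : Cardinal) → Function.Injective w →
    ∀ c, WCocyc k x w 0 0 D c → Cobd (VV k x) x 0 D c

/-- Integral cocycles are coboundaries, in dimension `D`. -/
def PInt (D : ℕ) : Prop :=
  ∀ (k L ι : Type) [Field k] [IsAlgClosed k] [Field L] [Algebra k L] [LinearOrder ι] [Fintype ι]
    (p : ℕ) (x : ι → L) (w : ι → ℕ), p.Prime → CharP k p → Model k x → SmoothCharts k x →
    Algebra.trdeg k L = (D : Cardinal) → Function.Injective w →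
    (∀ m : ℤ, m < 0 → ∀ q : ℕ, 2 ≤ q → q < D → Van (VV k x) x m q) →
    ∀ j : ℕ, 2 ≤ j → ∀ c, WCocyc k x w 0 0 j c → Cobd (VV k x) x 0 j c

/-! ## Bertini -/

/-- SMI: structure of smooth algebras over a field. -/
def S_SMI : Prop :=
  ∀ (k B : Type) [Field k] [CommRing B] [Algebra k B] [Algebra.Smooth k B],
    IsReduced B ∧ (∀ z : B, ∃ e : B, e * e = e ∧ ∀ b : B, b * z = 0 ↔ ∃ c, b = e * c) ∧
    (∀ q1 ∈ minimalPrimes B, ∀ q2 ∈ minimalPrimes B, q1 ≠ q2 → q1 ⊔ q2 = ⊤) ∧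
    (∀ q ∈ minimalPrimes B, Algebra.Smooth k (B ⧸ q))

/-- BS: a hypersurface transversal at all closed points is smooth. -/
def S_BS : Prop :=
  ∀ (K B : Type) [Field K] [IsAlgClosed K] [CommRing B] [Algebra K B] [Algebra.Smooth K B]
    (f : B), (∀ y : B →ₐ[K] K, y f = 0 → ∃ δ : B →ₗ[K] K,
      (∀ a b, δ (a * b) = y a * δ b + y b * δ a) ∧ δ f ≠ 0) →
    Algebra.Smooth K (B ⧸ Ideal.span {f})

/-- BERP: a generic hyperplane is transversal at all points. -/
def S_BERP : Prop :=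
  ∀ (k k' L ι : Type) [Field k] [Field k'] [Algebra k k'] [Field L] [Algebra k L] [Fintype ι]
    (x : ι → L) (D : ℕ) (u y : ι → k'), Model k x → Algebra.trdeg k L = (D : Cardinal) →
    AlgebraicIndependent k u → y ≠ 0 →
    (∀ (d : ℕ) (G : MvPolynomial ι k), G.IsHomogeneous d → aeval x G = 0 → aeval y G = 0) →
    D ≤ Module.finrank k' ↥(Tan k x y) →
    ∃ v ∈ Tan k x y, ∑ l, u l * v l ≠ 0

/-- BERA: smoothness of the generic hyperplane section. -/
def S_BERA : Prop :=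
  ∀ (k L ι : Type) [Field k] [IsAlgClosed k] [Field L] [Algebra k L] [Fintype ι] (x : ι → L)
    (D : ℕ), Model k x → SmoothCharts k x → Algebra.trdeg k L = (D : Cardinal) → 2 ≤ D →
    ∃ (k' : Type) (_ : Field k') (_ : IsAlgClosed k') (_ : Algebra k k') (L' : Type)
      (_ : Field L') (_ : Algebra k L') (_ : Algebra L L') (_ : Algebra k' L')
      (_ : IsScalarTower k L L') (_ : IsScalarTower k k' L') (u : ι → k'),
      Disj k k' L L' ∧ Model k' (fun i => algebraMap L L' (x i)) ∧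
      Algebra.trdeg k' L' = (D : Cardinal) ∧ ∑ i, u i • algebraMap L L' (x i) ≠ 0 ∧
      ∀ (i : ι) (θ : ↥(Algebra.adjoin k' (insert (algebraMap L L' (x i))⁻¹
          (Set.range (fun l => algebraMap L L' (x l)))))),
        (θ : L') = ∑ i, u i • algebraMap L L' (x i) →
        Algebra.Smooth k' (↥(Algebra.adjoin k' (insert (algebraMap L L' (x i))⁻¹
          (Set.range (fun l => algebraMap L L' (x l))))) ⧸ Ideal.span {θ})

/-- Hyperplane section data: the components `c` of the section `∑ u i X i = 0`, with coordinates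
`xc c` (some of them may be zero). -/
def HSec {k' L' ι : Type} [Field k'] [Field L'] [Algebra k' L'] [Fintype ι] (X : ι → L')
    (u : ι → k') {C : Type} (Lc : C → Type) [∀ c, Field (Lc c)] [∀ c, Algebra k' (Lc c)]
    (xc : ∀ c, ι → Lc c) : Prop :=
  (∀ c, ∀ G : MvPolynomial ι k', aeval X G = 0 → aeval (xc c) G = 0) ∧
  (∀ c, ∑ i, u i • xc c i = 0) ∧ (∑ i, u i • X i ≠ 0) ∧
  (∀ (m : ℤ) (S : Finset ι) (a : ∀ c, Lc c), S.Nonempty →
    (∀ c, (∀ i ∈ S, xc c i ≠ 0) → a c ∈ Sec (VV k' (xc c)) (xc c) m S) →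
    ∃ (N e : ℕ) (G : MvPolynomial ι k'), (e : ℤ) = m + N * S.card ∧ G.IsHomogeneous e ∧
      ∀ c, (∀ i ∈ S, xc c i ≠ 0) → (∏ i ∈ S, xc c i) ^ N * a c = aeval (xc c) G) ∧
  (∀ (e : ℕ) (S : Finset ι) (G : MvPolynomial ι k'), S.Nonempty → G.IsHomogeneous e →
    (∀ c, (∀ i ∈ S, xc c i ≠ 0) → aeval (xc c) G = 0) →
    ∃ (N : ℕ) (H : MvPolynomial ι k'), H.IsHomogeneous (e + N * S.card - 1) ∧ 1 ≤ N ∧
      (∏ i ∈ S, X i) ^ N * aeval X G = (∑ i, u i • X i) * aeval X H)

/-- COMP: the components of a smooth hyperplane section. -/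
def S_COMP : Prop :=
  ∀ (k' L' ι : Type) [Field k'] [Field L'] [Algebra k' L'] [Fintype ι] (X : ι → L')
    (u : ι → k') (D : ℕ), Model k' X → Algebra.trdeg k' L' = (D : Cardinal) →
    ∑ i, u i • X i ≠ 0 →
    (∀ (i : ι) (θ : ↥(Algebra.adjoin k' (insert (X i)⁻¹ (Set.range X)))),
      (θ : L') = ∑ i, u i • X i →
      Algebra.Smooth k' (↥(Algebra.adjoin k' (insert (X i)⁻¹ (Set.range X))) ⧸
        Ideal.span {θ})) →
    ∃ (C : Type) (_ : Fintype C) (Lc : C → Type) (_ : ∀ c, Field (Lc c))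
      (_ : ∀ c, Algebra k' (Lc c)) (xc : ∀ c, ι → Lc c), HSec X u Lc xc ∧
      ∀ c, Model k' (fun i : {i // xc c i ≠ 0} => xc c i) ∧
        SmoothCharts k' (fun i : {i // xc c i ≠ 0} => xc c i) ∧
        ∃ D' : ℕ, D' < D ∧ Algebra.trdeg k' (Lc c) = (D' : Cardinal)

/-- BER: the generic hyperplane section. -/
def S_BER : Prop :=
  ∀ (k L ι : Type) [Field k] [IsAlgClosed k] [Field L] [Algebra k L] [Fintype ι] (x : ι → L)
    (D : ℕ), Model k x → SmoothCharts k x → Algebra.trdeg k L = (D : Cardinal) → 2 ≤ D →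
    ∃ (k' : Type) (_ : Field k') (_ : IsAlgClosed k') (_ : Algebra k k') (L' : Type)
      (_ : Field L') (_ : Algebra k L') (_ : Algebra L L') (_ : Algebra k' L')
      (_ : IsScalarTower k L L') (_ : IsScalarTower k k' L') (u : ι → k')
      (C : Type) (_ : Fintype C) (Lc : C → Type) (_ : ∀ c, Field (Lc c))
      (_ : ∀ c, Algebra k' (Lc c)) (xc : ∀ c, ι → Lc c),
      Disj k k' L L' ∧ Model k' (fun i => algebraMap L L' (x i)) ∧
      HSec (fun i => algebraMap L L' (x i)) u Lc xc ∧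
      ∀ c, Model k' (fun i : {i // xc c i ≠ 0} => xc c i) ∧
        SmoothCharts k' (fun i : {i // xc c i ≠ 0} => xc c i) ∧
        ∃ D' : ℕ, D' < D ∧ Algebra.trdeg k' (Lc c) = (D' : Cardinal)

/-- HYPST: the induction step below the top level. -/
def S_HYPST : Prop :=
  ∀ D : ℕ, (∀ D' < D, PInt D') →
  ∀ (k L ι : Type) [Field k] [IsAlgClosed k] [Field L] [Algebra k L] [LinearOrder ι] [Fintype ι]
    (p : ℕ) (x : ι → L) (w : ι → ℕ), p.Prime → CharP k p → Model k x → SmoothCharts k x →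
    Algebra.trdeg k L = (D : Cardinal) → Function.Injective w →
    (∀ m : ℤ, m < 0 → ∀ q : ℕ, 2 ≤ q → q < D → Van (VV k x) x m q) →
    ∀ j : ℕ, 2 ≤ j → j < D → ∀ c, WCocyc k x w 0 0 j c → Cobd (VV k x) x 0 j c

/-! ## Rings -/

/-- `A` is a standard graded algebra with generators `x`. -/
structure RMod (K : Type) {A ι : Type} [Field K] [CommRing A] [Algebra K A] (x : ι → A) :
    Prop where
  hom : ∀ G : MvPolynomial ι K, aeval x G = 0 → ∀ d : ℕ, aeval x (homogeneousComponent d G) = 0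
  gen : Algebra.adjoin K (Set.range x) = ⊤

/-- The charts are smooth. -/
def RSmooth (K : Type) {A ι : Type} [Field K] [CommRing A] [Algebra K A] (x : ι → A) : Prop :=
  ∀ i, Algebra.Smooth K (Localization.Away (x i))

/-- DOM: smooth charts and a connected complex give a domain. -/
def S_DOM : Prop :=
  ∀ (k A ι : Type) [Field k] [IsAlgClosed k] [CommRing A] [Algebra k A] [LinearOrder ι]
    [Fintype ι] [Nonempty ι] (x : ι → A) (w : ι → ℕ) (Δ : Finset (Finset ι)),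
    RMod k x → Grob k x w Δ → RSmooth k x →
    (∀ P : ι → Prop, (∀ i j, {i, j} ∈ Δ → (P i ↔ P j)) → ∀ i j, (P i ↔ P j)) → IsDomain A

/-- FRAC: passage to the field of fractions. -/
def S_FRAC : Prop :=
  ∀ (K A ι : Type) [Field K] [CommRing A] [IsDomain A] [Algebra K A] [LinearOrder ι]
    [Fintype ι] (x : ι → A) (w : ι → ℕ) (Δ : Finset (Finset ι)),
    RMod K x → Grob K x w Δ →
    Model K (fun i => algebraMap A (FractionRing A) (x i)) ∧
    Grob K (fun i => algebraMap A (FractionRing A) (x i)) w Δ ∧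
    (RSmooth K x → SmoothCharts K (fun i => algebraMap A (FractionRing A) (x i)))

/-- DESCP: passage to an algebraically closed field, characteristic `p`. -/
def S_DESCP : Prop :=
  ∀ (K A ι : Type) [Field K] [CommRing A] [Algebra K A] [LinearOrder ι] [Fintype ι]
    (x : ι → A) (w : ι → ℕ) (Δ : Finset (Finset ι)) (p : ℕ), CharP K p →
    RMod K x → Grob K x w Δ → RSmooth K x →
    ∃ (k : Type) (_ : Field k) (_ : IsAlgClosed k) (A' : Type) (_ : CommRing A')
      (_ : Algebra k A') (x' : ι → A'), CharP k p ∧ RMod k x' ∧ Grob k x' w Δ ∧ RSmooth k x'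

/-- DESC0: passage from characteristic `0` to characteristic `p`. -/
def S_DESC0 : Prop :=
  ∀ (K A ι : Type) [Field K] [CharZero K] [CommRing A] [Algebra K A] [LinearOrder ι] [Fintype ι]
    (x : ι → A) (w : ι → ℕ) (Δ : Finset (Finset ι)),
    RMod K x → Grob K x w Δ → RSmooth K x →
    ∃ (p : ℕ) (k : Type) (_ : Field k) (_ : IsAlgClosed k) (A' : Type) (_ : CommRing A')
      (_ : Algebra k A') (x' : ι → A'), p.Prime ∧ CharP k p ∧ RMod k x' ∧ Grob k x' w Δ ∧
      RSmooth k x'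

universe v

/-- WT: Groebner data from a monomial order (its type of exponents lives in any universe). -/
def S_WT : Prop :=
  ∀ (K : Type) [Field K] (n : ℕ) (Δ : Finset (Finset (Fin n))) (I : Ideal (MvPolynomial (Fin n) K))
    (ord : MonomialOrder.{0, v} (Fin n)), (∀ F ∈ Δ, ∀ G : Finset (Fin n), G ⊆ F → G ∈ Δ) →
    (∀ f ∈ I, ∀ d : ℕ, homogeneousComponent d f ∈ I) → I.IsPrime →
    Ideal.span {p : MvPolynomial (Fin n) K | ∃ f ∈ I, f ≠ 0 ∧
          p = MvPolynomial.monomial (ord.degree f) (1 : K)} =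
        Ideal.span {p : MvPolynomial (Fin n) K | ∃ S : Finset (Fin n), S ∉ Δ ∧
          p = MvPolynomial.monomial (∑ i ∈ S, Finsupp.single i 1) (1 : K)} →
    ∃ w : Vert Δ → ℕ, RMod K (fun i : Vert Δ => Ideal.Quotient.mk I (X i.1)) ∧
      Grob K (fun i : Vert Δ => Ideal.Quotient.mk I (X i.1)) w (subc Δ)

end Pool.Agent.Y234.GS
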